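import Mathlib

set_option autoImplicit false

/-!
# Boolean intersection complexes

For a finite set `E` of edges and a family `A F` of subgroups of an abelian group `W`, we consider
the complex with chains `x F ∈ A F` (`F ⊆ E`, `|F| = k`) and boundary
`(∂ x) F = ∑_{e ∈ E \ F} ± x (F ∪ {e})`.
-/

namespace Pool.Agent.SpanHom

variable {α : Type*} [LinearOrder α] {W : Type*} [AddCommGroup W]

/-- the sign of removing `e` from `insert e F` -/
def sgn (e : α) (F : Finset α) : ℤ := (-1) ^ (F.filter (· < e)).card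

theorem sgn_mul_self (e : α) (F : Finset α) : sgn e F * sgn e F = 1 := by
  unfold sgn
  rw [← pow_add, ← two_mul, pow_mul]; simp

theorem sgn_insert {e f : α} {F : Finset α} (hef : e ≠ f) (he : e ∉ F) (hf : f ∉ F) :
    sgn f (insert e F) * sgn e (insert f F) = -(sgn e F * sgn f F) := by
  have key : ∀ {e f : α}, e < f → e ∉ F → f ∉ F →
      sgn f (insert e F) * sgn e (insert f F) = -(sgn e F * sgn f F) := by
    intro e f h he hf
    have h1 : (insert e F).filter (· < f) = insert e (F.filter (· < f)) := by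
      rw [Finset.filter_insert, if_pos h]
    have h2 : (insert f F).filter (· < e) = F.filter (· < e) := by
      rw [Finset.filter_insert, if_neg (not_lt.mpr h.le)]
    unfold sgn
    rw [h1, h2, Finset.card_insert_of_notMem (by simp [he]), pow_succ]
    ring
  rcases lt_or_gt_of_ne hef with h | h
  · exact key h he hf
  · have := key h hf he
    rw [mul_comm, this, mul_comm (sgn f F)]

/-- the boundary operator -/
def bd (E : Finset α) (x : Finset α → W) (F : Finset α) : W :=
  ∑ e ∈ E \ F, sgn e F • x (insert e F)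

/-- `k`-chains -/
structure IsChn (E : Finset α) (A : Finset α → AddSubgroup W) (k : ℕ) (x : Finset α → W) : Prop where
  mem : ∀ F, x F ∈ A F
  supp : ∀ F, x F ≠ 0 → F ⊆ E ∧ F.card = k

/-- exactness in degree `k` -/
def Exact (E : Finset α) (A : Finset α → AddSubgroup W) (k : ℕ) : Prop :=
  ∀ x, IsChn E A k x → bd E x = 0 → ∃ y, IsChn E A (k + 1) y ∧ bd E y = x

theorem bd_add (E : Finset α) (x y : Finset α → W) : bd E (x + y) = bd E x + bd E y := by
  funext F
  simp [bd, smul_add, Finset.sum_add_distrib]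

theorem bd_neg (E : Finset α) (x : Finset α → W) : bd E (-x) = -bd E x := by
  funext F
  simp [bd, Finset.sum_neg_distrib]

theorem bd_zero (E : Finset α) : bd E (0 : Finset α → W) = 0 := by
  funext F
  simp [bd]

theorem bd_map {W' : Type*} [AddCommGroup W'] (f : W →+ W') (E : Finset α) (x : Finset α → W) :
    bd E (fun F => f (x F)) = fun F => f (bd E x F) := by
  funext F
  simp [bd, map_sum, map_zsmul]

theorem IsChn.add {E : Finset α} {A : Finset α → AddSubgroup W} {k : ℕ} {x y : Finset α → W}
    (hx : IsChn E A k x) (hy : IsChn E A k y) : IsChn E A k (x + y) := by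
  refine ⟨fun F => (A F).add_mem (hx.mem F) (hy.mem F), fun F hF => ?_⟩
  by_cases h : x F = 0
  · apply hy.supp; intro h2; apply hF; simp [h, h2]
  · exact hx.supp F h

theorem IsChn.neg {E : Finset α} {A : Finset α → AddSubgroup W} {k : ℕ} {x : Finset α → W}
    (hx : IsChn E A k x) : IsChn E A k (-x) := by
  refine ⟨fun F => (A F).neg_mem (hx.mem F), fun F hF => hx.supp F ?_⟩
  intro h; apply hF; simp [h]

theorem IsChn.mono {E : Finset α} {A B : Finset α → AddSubgroup W} {k : ℕ} {x : Finset α → W}
    (h : ∀ F, A F ≤ B F) (hx : IsChn E A k x) : IsChn E B k x :=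
  ⟨fun F => h F (hx.mem F), hx.supp⟩

theorem isChn_zero (E : Finset α) (A : Finset α → AddSubgroup W) (k : ℕ) :
    IsChn E A k (0 : Finset α → W) :=
  ⟨fun F => (A F).zero_mem, fun F h => absurd rfl h⟩

/-! ### Adding an edge -/

section Insert

variable {E : Finset α} {e : α}

theorem bd_insert_notMem (he : e ∉ E) (x : Finset α → W) {F : Finset α} (hF : e ∉ F) :
    bd (insert e E) x F = bd E x F + sgn e F • x (insert e F) := by
  unfold bd
  have h1 : insert e E \ F = insert e (E \ F) := by
    rw [Finset.insert_sdiff_of_notMem _ hF]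
  rw [h1, Finset.sum_insert (by simp [he]), add_comm]

/-- the part of a chain on `insert e E` over the sets containing `e`, with signs -/
def res (e : α) (x : Finset α → W) : Finset α → W := fun F =>
  if e ∈ F then 0 else sgn e F • x (insert e F)

/-- the part of a chain over the sets not containing `e` -/
def del (e : α) (x : Finset α → W) : Finset α → W := fun F => if e ∈ F then 0 else x F

theorem bd_insert_mem (he : e ∉ E) (x : Finset α → W) {F : Finset α} (hF : e ∉ F) :
    bd (insert e E) x (insert e F) = -(sgn e F • bd E (res e x) F) := by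
  unfold bd
  have h1 : insert e E \ insert e F = E \ F := by
    ext a
    simp only [Finset.mem_sdiff, Finset.mem_insert, not_or]
    constructor
    · rintro ⟨h1 | h1, h2, h3⟩
      · exact absurd h1 h2
      · exact ⟨h1, h3⟩
    · rintro ⟨h1, h2⟩
      exact ⟨Or.inr h1, fun h => he (h ▸ h1), h2⟩
  rw [h1, Finset.smul_sum, ← Finset.sum_neg_distrib]
  refine Finset.sum_congr rfl fun f hf => ?_
  rw [Finset.mem_sdiff] at hf
  have hfe : f ≠ e := fun h => he (h ▸ hf.1)
  have hef : e ∉ insert f F := by simp [hF, Ne.symm hfe]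
  unfold res
  rw [if_neg hef, smul_smul, smul_smul, ← neg_smul, Finset.insert_comm]
  congr 1
  have h2 := sgn_insert (Ne.symm hfe) hF hf.2
  have h3 := sgn_mul_self e (insert f F)
  calc sgn f (insert e F) = sgn f (insert e F) * (sgn e (insert f F) * sgn e (insert f F)) := by
        rw [h3, mul_one]
    _ = (sgn f (insert e F) * sgn e (insert f F)) * sgn e (insert f F) := by ring
    _ = _ := by rw [h2]; ring

/-- gluing two chains -/
def glue (e : α) (y0 y1 : Finset α → W) : Finset α → W := fun F =>
  if e ∈ F then sgn e (F.erase e) • y1 (F.erase e) else y0 F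

theorem res_glue (y0 y1 : Finset α → W) (h : ∀ F, e ∈ F → y1 F = 0) : res e (glue e y0 y1) = y1 := by
  funext F
  unfold res glue
  by_cases hF : e ∈ F
  · rw [if_pos hF, h F hF]
  · rw [if_neg hF, if_pos (Finset.mem_insert_self _ _), Finset.erase_insert hF, smul_smul,
      sgn_mul_self, one_smul]

theorem isChn_glue {A : Finset α → AddSubgroup W} {k : ℕ} {y0 y1 : Finset α → W}
    (h0 : IsChn E A (k + 1) y0) (h1 : IsChn E (fun F => A (insert e F)) k y1) :
    IsChn (insert e E) A (k + 1) (glue e y0 y1) := by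
  refine ⟨fun F => ?_, fun F hF => ?_⟩
  · unfold glue
    split_ifs with h
    · have := h1.mem (F.erase e)
      simp only [Finset.insert_erase h] at this
      exact (A F).zsmul_mem this _
    · exact h0.mem F
  · unfold glue at hF
    split_ifs at hF with h
    · have h3 : y1 (F.erase e) ≠ 0 := by
        intro h4; apply hF; simp [h4]
      obtain ⟨h5, h6⟩ := h1.supp _ h3
      constructor
      · rw [← Finset.insert_erase h]; exact Finset.insert_subset_insert _ h5
      · rw [← Finset.insert_erase h, Finset.card_insert_of_notMem (Finset.notMem_erase _ _), h6]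
    · obtain ⟨h5, h6⟩ := h0.supp F hF
      exact ⟨h5.trans (Finset.subset_insert _ _), h6⟩

theorem isChn_glue_zero {A : Finset α → AddSubgroup W} {y0 : Finset α → W}
    (h0 : IsChn E A 0 y0) : IsChn (insert e E) A 0 (glue e y0 0) := by
  refine ⟨fun F => ?_, fun F hF => ?_⟩
  · unfold glue
    split_ifs with h
    · simp
    · exact h0.mem F
  · unfold glue at hF
    split_ifs at hF with h
    · simp at hF
    · obtain ⟨h5, h6⟩ := h0.supp F hF
      exact ⟨h5.trans (Finset.subset_insert _ _), h6⟩

theorem isChn_res {A : Finset α → AddSubgroup W} {k : ℕ} {x : Finset α → W}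
    (he : e ∉ E) (hx : IsChn (insert e E) A (k + 1) x) :
    IsChn E (fun F => A (insert e F)) k (res e x) := by
  refine ⟨fun F => ?_, fun F hF => ?_⟩
  · unfold res
    split_ifs with h
    · exact (A _).zero_mem
    · exact (A _).zsmul_mem (hx.mem _) _
  · unfold res at hF
    split_ifs at hF with h
    · exact absurd rfl hF
    · have h3 : x (insert e F) ≠ 0 := by
        intro h4; apply hF; simp [h4]
      obtain ⟨h5, h6⟩ := hx.supp _ h3
      rw [Finset.card_insert_of_notMem h] at h6
      refine ⟨?_, by omega⟩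
      intro a ha
      have := h5 (Finset.mem_insert_of_mem ha)
      rw [Finset.mem_insert] at this
      rcases this with rfl | h7
      · exact absurd ha h
      · exact h7

theorem isChn_del {A : Finset α → AddSubgroup W} {k : ℕ} {x : Finset α → W}
    (hx : IsChn (insert e E) A k x) : IsChn E A k (del e x) := by
  refine ⟨fun F => ?_, fun F hF => ?_⟩
  · unfold del
    split_ifs with h
    · exact (A _).zero_mem
    · exact hx.mem _
  · unfold del at hF
    split_ifs at hF with h
    · exact absurd rfl hF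
    · obtain ⟨h5, h6⟩ := hx.supp _ hF
      refine ⟨?_, h6⟩
      intro a ha
      have := h5 ha
      rw [Finset.mem_insert] at this
      rcases this with rfl | h7
      · exact absurd ha h
      · exact h7

theorem bd_del (he : e ∉ E) (x : Finset α → W) {F : Finset α} (hF : e ∉ F) :
    bd E (del e x) F = bd E x F := by
  unfold bd
  refine Finset.sum_congr rfl fun f hf => ?_
  rw [Finset.mem_sdiff] at hf
  have hfe : f ≠ e := fun h => he (h ▸ hf.1)
  have hef : e ∉ insert f F := by simp [hF, Ne.symm hfe]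
  unfold del
  rw [if_neg hef]

theorem bd_eq_zero_of_mem {A : Finset α → AddSubgroup W} {k : ℕ} {x : Finset α → W}
    (he : e ∉ E) (hx : IsChn E A k x) {F : Finset α} (hF : e ∈ F) : bd E x F = 0 := by
  unfold bd
  refine Finset.sum_eq_zero fun f _ => ?_
  have : x (insert f F) = 0 := by
    by_contra h
    exact he ((hx.supp _ h).1 (Finset.mem_insert_of_mem hF))
  simp [this]

theorem chn_zero_of_mem {A : Finset α → AddSubgroup W} {k : ℕ} {x : Finset α → W}
    (he : e ∉ E) (hx : IsChn E A k x) {F : Finset α} (hF : e ∈ F) : x F = 0 := by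
  by_contra h
  exact he ((hx.supp _ h).1 hF)

theorem bd_glue (he : e ∉ E) {A B : Finset α → AddSubgroup W} {k l : ℕ} {y0 y1 : Finset α → W}
    (h0 : IsChn E A k y0) (h1 : IsChn E B l y1) :
    bd (insert e E) (glue e y0 y1) = glue e (bd E y0 + y1) (-bd E y1) := by
  have hy1 : ∀ F, e ∈ F → y1 F = 0 := fun F hF => chn_zero_of_mem he h1 hF
  funext F
  by_cases hF : e ∈ F
  · obtain ⟨F', hF', rfl⟩ : ∃ F', e ∉ F' ∧ F = insert e F' :=
      ⟨F.erase e, Finset.notMem_erase _ _, (Finset.insert_erase hF).symm⟩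
    rw [bd_insert_mem he _ hF', res_glue y0 y1 hy1]
    unfold glue
    rw [if_pos (Finset.mem_insert_self _ _), Finset.erase_insert hF']
    simp
  · rw [bd_insert_notMem he _ hF]
    unfold glue
    rw [if_neg hF, if_pos (Finset.mem_insert_self _ _), Finset.erase_insert hF, smul_smul,
      sgn_mul_self, one_smul]
    simp only [Pi.add_apply]
    congr 1
    unfold bd
    refine Finset.sum_congr rfl fun f hf => ?_
    rw [Finset.mem_sdiff] at hf
    have hfe : f ≠ e := fun h => he (h ▸ hf.1)
    have hef : e ∉ insert f F := by simp [hF, Ne.symm hfe]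
    simp only [if_neg hef]

theorem glue_del_res {A : Finset α → AddSubgroup W} {k : ℕ} {x : Finset α → W} :
    glue e (del e x) (res e x) = x := by
  funext F
  unfold glue del res
  by_cases hF : e ∈ F
  · rw [if_pos hF, if_neg (Finset.notMem_erase _ _), Finset.insert_erase hF, smul_smul,
      sgn_mul_self, one_smul]
  · rw [if_neg hF, if_neg hF]

theorem glue_inj {y0 y1 z0 z1 : Finset α → W} (hy : ∀ F, e ∈ F → y1 F = 0)
    (hz : ∀ F, e ∈ F → z1 F = 0) (hy0 : ∀ F, e ∈ F → y0 F = 0)
    (hz0 : ∀ F, e ∈ F → z0 F = 0) (h : glue e y0 y1 = glue e z0 z1) : y0 = z0 ∧ y1 = z1 := by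
  constructor
  · funext F
    by_cases hF : e ∈ F
    · rw [hy0 F hF, hz0 F hF]
    · have := congrFun h F
      unfold glue at this
      rwa [if_neg hF, if_neg hF] at this
  · have h1 := res_glue y0 y1 hy
    have h2 := res_glue z0 z1 hz
    rw [← h1, ← h2, h]

/-- the family `F ↦ A (F ∪ {e})` -/
def shift (e : α) (A : Finset α → AddSubgroup W) : Finset α → AddSubgroup W :=
  fun F => A (insert e F)

theorem IsChn.bd {A : Finset α → AddSubgroup W} {k : ℕ} {x : Finset α → W}
    (hA : Antitone A) (hx : IsChn E A (k + 1) x) : IsChn E A k (bd E x) := by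
  refine ⟨fun F => ?_, fun F hF => ?_⟩
  · unfold SpanHom.bd
    refine (A F).sum_mem fun e _ => (A F).zsmul_mem ?_ _
    exact hA (Finset.subset_insert _ _) (hx.mem _)
  · unfold SpanHom.bd at hF
    obtain ⟨e, he, h⟩ := Finset.exists_ne_zero_of_sum_ne_zero hF
    rw [Finset.mem_sdiff] at he
    have h3 : x (insert e F) ≠ 0 := by
      intro h4; apply h; simp [h4]
    obtain ⟨h5, h6⟩ := hx.supp _ h3
    rw [Finset.card_insert_of_notMem he.2] at h6
    exact ⟨(Finset.subset_insert _ _).trans h5, by omega⟩

theorem bd_insert_del_res (he : e ∉ E) (x : Finset α → W) (hx : ∀ F, e ∉ F → bd (insert e E) x F = 0) 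
    {A : Finset α → AddSubgroup W} {k : ℕ} (hxc : IsChn (insert e E) A k x) :
    bd E (del e x) = - res e x := by
  funext F
  by_cases hF : e ∈ F
  · rw [bd_eq_zero_of_mem he (isChn_del hxc) hF]
    simp [res, hF]
  · rw [bd_del he x hF]
    have := hx F hF
    rw [bd_insert_notMem he _ hF] at this
    simp only [Pi.neg_apply, res, if_neg hF]
    exact eq_neg_of_add_eq_zero_left this

theorem bd_res (he : e ∉ E) (x : Finset α → W) (hx : bd (insert e E) x = 0) 
    {A : Finset α → AddSubgroup W} {k : ℕ} (hxc : IsChn (insert e E) A (k + 1) x) :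
    bd E (res e x) = 0 := by
  funext F
  by_cases hF : e ∈ F
  · rw [bd_eq_zero_of_mem he (isChn_res he hxc) hF]
    simp
  · have := congrFun hx (insert e F)
    rw [bd_insert_mem he _ hF] at this
    simp only [Pi.zero_apply, neg_eq_zero] at this
    have h2 : sgn e F • (sgn e F • bd E (res e x) F) = 0 := by rw [this, smul_zero]
    rwa [smul_smul, sgn_mul_self, one_smul] at h2

theorem res_eq_zero {A : Finset α → AddSubgroup W} {x : Finset α → W}
    (hxc : IsChn (insert e E) A 0 x) : res e x = 0 := by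
  funext F
  unfold res
  split_ifs with h
  · rfl
  · have h3 : x (insert e F) = 0 := by
      by_contra h4
      have := (hxc.supp _ h4).2
      rw [Finset.card_insert_of_notMem h] at this
      omega
    simp [h3]

/-- adding an edge, exactness (positive degrees) -/
theorem exact_insert (he : e ∉ E) {A : Finset α → AddSubgroup W} (hA : Antitone A) {k : ℕ}
    (h1 : Exact E A (k + 1)) (h2 : Exact E (shift e A) k) : Exact (insert e E) A (k + 1) := by
  intro x hx hbx
  have hx1 := isChn_res he hx
  have hx0 := isChn_del hx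
  have hb1 := bd_res he x hbx hx
  have hb0 := bd_insert_del_res he x (fun F _ => congrFun hbx F) hx
  obtain ⟨y1, hy1, hy1'⟩ := h2 (-res e x) hx1.neg (by rw [bd_neg, hb1, neg_zero])
  have hy1A : IsChn E A (k + 1) y1 := hy1.mono fun F => hA (Finset.subset_insert _ _)
  obtain ⟨y0, hy0, hy0'⟩ := h1 (del e x + -y1) (hx0.add hy1A.neg) (by
    rw [bd_add, bd_neg, hb0, hy1']; simp)
  refine ⟨glue e y0 y1, isChn_glue hy0 hy1, ?_⟩
  rw [bd_glue he hy0 hy1, hy0', hy1', neg_neg, neg_add_cancel_right]
  exact glue_del_res (A := A) (k := k)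

/-- adding an edge, exactness (degree zero) -/
theorem exact_insert_zero (he : e ∉ E) {A : Finset α → AddSubgroup W}
    (h1 : Exact E A 0) : Exact (insert e E) A 0 := by
  intro x hx hbx
  have hx0 := isChn_del hx
  have hb0 := bd_insert_del_res he x (fun F _ => congrFun hbx F) hx
  have hr := res_eq_zero hx
  obtain ⟨y0, hy0, hy0'⟩ := h1 (del e x) hx0 (by rw [hb0, hr, neg_zero])
  refine ⟨glue e y0 0, isChn_glue hy0 (isChn_zero _ _ _), ?_⟩
  rw [bd_glue he hy0 (isChn_zero E A 0), hy0', bd_zero, neg_zero, add_zero, ← hr]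
  exact glue_del_res (A := A) (k := 0)

/-- a redundant edge makes everything exact -/
theorem exact_insert_loop (he : e ∉ E) {A : Finset α → AddSubgroup W} (hA : Antitone A)
    (hl : ∀ F, A F ≤ A (insert e F)) (k : ℕ) : Exact (insert e E) A k := by
  intro x hx hbx
  have hx0 := isChn_del hx
  have hb0 := bd_insert_del_res he x (fun F _ => congrFun hbx F) hx
  have hx0' : IsChn E (fun F => A (insert e F)) k (del e x) := hx0.mono hl
  refine ⟨glue e 0 (del e x), isChn_glue (isChn_zero _ _ _) hx0', ?_⟩
  rw [bd_glue he (isChn_zero E A 0) hx0', hb0, bd_zero, neg_neg, zero_add]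
  exact glue_del_res (A := A) (k := k)

theorem isChn_glue_zero_right {A : Finset α → AddSubgroup W} {k : ℕ} {y0 : Finset α → W}
    (h0 : IsChn E A k y0) : IsChn (insert e E) A k (glue e y0 0) := by
  cases k with
  | zero => exact isChn_glue_zero h0
  | succ k => exact isChn_glue h0 (isChn_zero _ _ _)

theorem glue_zero_zero : glue e (0 : Finset α → W) 0 = 0 := by
  funext F
  simp [glue]

/-- every chain of positive degree on `insert e E` is glued -/
theorem exists_glue (he : e ∉ E) {A : Finset α → AddSubgroup W} {k : ℕ} {x : Finset α → W}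
    (hx : IsChn (insert e E) A (k + 1) x) :
    ∃ y0 y1, IsChn E A (k + 1) y0 ∧ IsChn E (shift e A) k y1 ∧ x = glue e y0 y1 :=
  ⟨del e x, res e x, isChn_del hx, isChn_res he hx, (glue_del_res (A := A) (k := k)).symm⟩

/-- adding an edge, non-exactness, first case -/
theorem not_exact_insert (he : e ∉ E) {A : Finset α → AddSubgroup W} (hA : Antitone A) {k : ℕ}
    (h1 : ¬ Exact E A k) (h2 : Exact E (shift e A) k) : ¬ Exact (insert e E) A k := by
  intro h
  apply h1
  intro x hx hbx
  have hxg : IsChn (insert e E) A k (glue e x 0) := isChn_glue_zero_right hx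
  obtain ⟨y, hy, hyx⟩ := h _ hxg (by
    rw [bd_glue he hx (isChn_zero E A 0), hbx, bd_zero, neg_zero, add_zero, glue_zero_zero])
  obtain ⟨y0, y1, hy0, hy1, rfl⟩ := exists_glue he hy
  rw [bd_glue he hy0 hy1] at hyx
  have hy1A : IsChn E A k y1 := hy1.mono fun F => hA (Finset.subset_insert _ _)
  obtain ⟨e1, e2⟩ := glue_inj (e := e)
    (fun F hF => by rw [Pi.neg_apply, bd_eq_zero_of_mem he hy1 hF, neg_zero])
    (fun F _ => rfl)
    (fun F hF => by
      rw [Pi.add_apply, bd_eq_zero_of_mem he hy0 hF, chn_zero_of_mem he hy1 hF, zero_add])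
    (fun F hF => chn_zero_of_mem he hx hF) hyx
  obtain ⟨z, hz, hz'⟩ := h2 y1 hy1 (neg_eq_zero.mp e2)
  have hzA : IsChn E A (k + 1) z := hz.mono fun F => hA (Finset.subset_insert _ _)
  exact ⟨y0 + z, hy0.add hzA, by rw [bd_add, hz', e1]⟩

/-- adding an edge, non-exactness, second case -/
theorem not_exact_insert_succ (he : e ∉ E) {A : Finset α → AddSubgroup W} (hA : Antitone A) {k : ℕ}
    (h1 : Exact E A k) (h2 : ¬ Exact E (shift e A) k) : ¬ Exact (insert e E) A (k + 1) := by
  intro h
  apply h2
  intro x hx hbx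
  have hxA : IsChn E A k x := hx.mono fun F => hA (Finset.subset_insert _ _)
  obtain ⟨x0, hx0, hx0'⟩ := h1 (-x) hxA.neg (by rw [bd_neg, hbx, neg_zero])
  have hxg : IsChn (insert e E) A (k + 1) (glue e x0 x) := isChn_glue hx0 hx
  obtain ⟨y, hy, hyx⟩ := h _ hxg (by
    rw [bd_glue he hx0 hx, hbx, hx0', neg_zero, neg_add_cancel, glue_zero_zero])
  obtain ⟨y0, y1, hy0, hy1, rfl⟩ := exists_glue he hy
  rw [bd_glue he hy0 hy1] at hyx
  obtain ⟨e1, e2⟩ := glue_inj (e := e)
    (fun F hF => by rw [Pi.neg_apply, bd_eq_zero_of_mem he hy1 hF, neg_zero])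
    (fun F hF => chn_zero_of_mem he hx hF)
    (fun F hF => by
      rw [Pi.add_apply, bd_eq_zero_of_mem he hy0 hF, chn_zero_of_mem he hy1 hF, zero_add])
    (fun F hF => chn_zero_of_mem he hx0 hF) hyx
  exact ⟨-y1, hy1.neg, by rw [bd_neg, e2]⟩

end Insert

/-! ### Splittings -/

/-- if a family is split by an additive map `p` into two exact families, it is exact -/
theorem exact_of_split {E : Finset α} {A A₁ A₂ : Finset α → AddSubgroup W} {k : ℕ} (p : W →+ W)
    (h1 : ∀ F, F ⊆ E → ∀ w ∈ A F, p w ∈ A₁ F) (h2 : ∀ F, F ⊆ E → ∀ w ∈ A F, w - p w ∈ A₂ F)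
    (h3 : ∀ F, F ⊆ E → A₁ F ≤ A F) (h4 : ∀ F, F ⊆ E → A₂ F ≤ A F)
    (e1 : Exact E A₁ k) (e2 : Exact E A₂ k) : Exact E A k := by
  intro x hx hbx
  have hx1 : IsChn E A₁ k (fun F => p (x F)) := by
    refine ⟨fun F => ?_, fun F hF => ?_⟩
    · by_cases h : x F = 0
      · simp [h]
      · exact h1 F (hx.supp F h).1 _ (hx.mem F)
    · apply hx.supp F; intro h; apply hF; simp [h]
  have hx2 : IsChn E A₂ k (fun F => x F - p (x F)) := by
    refine ⟨fun F => ?_, fun F hF => ?_⟩
    · by_cases h : x F = 0
      · simp [h]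
      · exact h2 F (hx.supp F h).1 _ (hx.mem F)
    · apply hx.supp F; intro h; apply hF; simp [h]
  have hb1 : bd E (fun F => p (x F)) = 0 := by
    rw [bd_map p E x, hbx]; funext F; simp
  have hb2 : bd E (fun F => x F - p (x F)) = 0 := by
    have : (fun F => x F - p (x F)) = x + -(fun F => p (x F)) := by
      funext F; simp [sub_eq_add_neg]
    rw [this, bd_add, bd_neg, hb1, hbx]; simp
  obtain ⟨y1, hy1, hy1'⟩ := e1 _ hx1 hb1
  obtain ⟨y2, hy2, hy2'⟩ := e2 _ hx2 hb2
  have hmono : ∀ {A' : Finset α → AddSubgroup W} {y : Finset α → W}, (∀ F, F ⊆ E → A' F ≤ A F) →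
      IsChn E A' (k + 1) y → IsChn E A (k + 1) y := by
    intro A' y h hy
    refine ⟨fun F => ?_, hy.supp⟩
    by_cases h5 : y F = 0
    · rw [h5]; exact (A F).zero_mem
    · exact h F (hy.supp F h5).1 (hy.mem F)
  refine ⟨y1 + y2, (hmono h3 hy1).add (hmono h4 hy2), ?_⟩
  rw [bd_add, hy1', hy2']
  funext F
  simp

/-- exactness only depends on the family over the subsets of `E` -/
theorem exact_congr {E : Finset α} {A B : Finset α → AddSubgroup W} {k : ℕ}
    (h : ∀ F, F ⊆ E → A F = B F) (hA : Exact E A k) : Exact E B k := by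
  intro x hx hbx
  have hmono : ∀ {A' B' : Finset α → AddSubgroup W} {y : Finset α → W} {l : ℕ},
      (∀ F, F ⊆ E → A' F = B' F) → IsChn E A' l y → IsChn E B' l y := by
    intro A' B' y l h hy
    refine ⟨fun F => ?_, hy.supp⟩
    by_cases h5 : y F = 0
    · rw [h5]; exact (B' F).zero_mem
    · rw [← h F (hy.supp F h5).1]; exact hy.mem F
  obtain ⟨y, hy, hy'⟩ := hA x (hmono (fun F hF => (h F hF).symm) hx) hbx
  exact ⟨y, hmono h hy, hy'⟩

/-- over the empty set of edges the complex is exact in positive degrees -/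
theorem exact_empty_succ (A : Finset α → AddSubgroup W) (k : ℕ) : Exact ∅ A (k + 1) := by
  intro x hx _
  refine ⟨0, isChn_zero _ _ _, ?_⟩
  rw [bd_zero]
  funext F
  by_contra h
  obtain ⟨h1, h2⟩ := hx.supp F (Ne.symm h)
  rw [Finset.subset_empty.mp h1] at h2
  simp at h2

/-- a nonzero element of `A ∅` shows non-exactness over the empty set of edges -/
theorem not_exact_empty {A : Finset α → AddSubgroup W} {w : W} (hw : w ∈ A ∅) (h0 : w ≠ 0) :
    ¬ Exact ∅ A 0 := by
  intro h
  obtain ⟨y, hy, hy'⟩ := h (fun F => if F = ∅ then w else 0) ⟨fun F => by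
      split_ifs with hF
      · rw [hF]; exact hw
      · exact (A F).zero_mem, fun F hF => by
      split_ifs at hF with h1
      · rw [h1]; simp
      · exact absurd rfl hF⟩ (by
      funext F; simp [bd])
  have h2 := congrFun hy' ∅
  simp [bd] at h2
  exact h0 h2.symm

/-- vanishing families are exact -/
theorem exact_of_eq_bot {E : Finset α} {A : Finset α → AddSubgroup W} {k : ℕ}
    (h : ∀ F, F ⊆ E → A F = ⊥) : Exact E A k := by
  intro x hx _
  refine ⟨0, isChn_zero _ _ _, ?_⟩
  rw [bd_zero]
  funext F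
  by_contra h1
  have h2 := hx.mem F
  rw [h F (hx.supp F (Ne.symm h1)).1, AddSubgroup.mem_bot] at h2
  exact h1 h2.symm

end Pool.Agent.SpanHom
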