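import Mathlib

set_option autoImplicit false

/-!
# Degree zero chromatic symmetric homology: definitions
-/

namespace Pool.Agent.SpanHom

open Equiv

/-- Pairs of vertices, ordered lexicographically; an edge `{i, j}` with `i < j` is the pair
`(i, j)`. -/
abbrev Pair (n : ℕ) : Type := Fin n ×ₗ Fin n

/-- The edges of `G`, as pairs `(i, j)` with `i < j`. -/
noncomputable def edges {n : ℕ} (G : SimpleGraph (Fin n)) : Finset (Pair n) := by
  classical exact Finset.univ.filter fun e => (ofLex e).1 < (ofLex e).2 ∧ G.Adj (ofLex e).1 (ofLex e).2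

/-- The spanning subgraph with edge set `F`. -/
def graphOf {n : ℕ} (F : Finset (Pair n)) : SimpleGraph (Fin n) :=
  SimpleGraph.fromRel fun i j => toLex (i, j) ∈ F

theorem young_inv {n : ℕ} {F : Finset (Pair n)} {a : Perm (Fin n)}
    (ha : ∀ x, (graphOf F).Reachable x (a x)) (x : Fin n) : (graphOf F).Reachable x (a⁻¹ x) := by
  have := (ha (a⁻¹ x)).symm
  simpa using this

/-- The Young subgroup of the permutations preserving every connected component of `([n], F)`. -/
def young {n : ℕ} (F : Finset (Pair n)) : Subgroup (Perm (Fin n)) where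
  carrier := {g | ∀ x, (graphOf F).Reachable x (g x)}
  one_mem' := fun x => SimpleGraph.Reachable.refl x
  mul_mem' := fun {a b} ha hb x => (hb x).trans (ha (b x))
  inv_mem' := fun {_} ha x => young_inv ha x

theorem graphOf_mono {n : ℕ} {F F' : Finset (Pair n)} (h : F' ⊆ F) : graphOf F' ≤ graphOf F := by
  intro i j hij
  simp only [graphOf, SimpleGraph.fromRel_adj] at hij ⊢
  exact ⟨hij.1, hij.2.imp (fun h1 => h h1) (fun h1 => h h1)⟩

theorem young_mono {n : ℕ} {F F' : Finset (Pair n)} (h : F' ⊆ F) : young F' ≤ young F :=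
  fun _ hg x => (hg x).mono (graphOf_mono h)

/-- The permutation module `M_F`: the free abelian group on the left cosets of the Young
subgroup. -/
abbrev M {n : ℕ} (F : Finset (Pair n)) : Type := (Perm (Fin n) ⧸ young F) →₀ ℤ

/-- The transfer map `M_F → M_F'`, `F' ⊆ F`: it sends the coset `c` to the sum of all the cosets
of the smaller group contained in `c`. -/
noncomputable def transfer {n : ℕ} {F F' : Finset (Pair n)} (h : F' ⊆ F) : M F →+ M F' := by
  classical exact Finsupp.liftAddHom fun c => (zmultiplesHom (M F')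
    (∑ c' : Perm (Fin n) ⧸ young F' with Subgroup.quotientMapOfLE (young_mono h) c' = c,
      Finsupp.single c' 1))

/-- The `k`-chains: `⨁_{|F| = k} M_F`. -/
abbrev Chain {n : ℕ} (G : SimpleGraph (Fin n)) (k : ℕ) : Type :=
  (F : {F : Finset (Pair n) // F ⊆ edges G ∧ F.card = k}) → M F.1

/-- The sign `(-1)^#{f ∈ F : f < e}`. -/
noncomputable def signOf {n : ℕ} (e : Pair n) (F : Finset (Pair n)) : ℤ :=
  (-1) ^ (F.filter (· < e)).card

theorem insert_index {n : ℕ} {G : SimpleGraph (Fin n)} {k : ℕ} {F : Finset (Pair n)}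
    (hF : F ⊆ edges G ∧ F.card = k) {e : Pair n} (he : e ∈ edges G \ F) :
    insert e F ⊆ edges G ∧ (insert e F).card = k + 1 :=
  ⟨Finset.insert_subset (Finset.mem_sdiff.mp he).1 hF.1, by
    rw [Finset.card_insert_of_notMem (Finset.mem_sdiff.mp he).2, hF.2]⟩

/-- The differential `C_{k+1} → C_k`: the component at `F'` is the sum over the edges `e` not in
`F'` of the signed transfers `M_{F' ∪ e} → M_{F'}`. -/
noncomputable def diffFun {n : ℕ} (G : SimpleGraph (Fin n)) (k : ℕ) (x : Chain G (k + 1)) :
    Chain G k := fun F' => ∑ e : {e // e ∈ edges G \ F'.1},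
      signOf e.1 F'.1 • transfer (Finset.subset_insert e.1 F'.1)
        (x ⟨insert e.1 F'.1, insert_index F'.2 e.2⟩)

theorem diffFun_zero {n : ℕ} (G : SimpleGraph (Fin n)) (k : ℕ) : diffFun G k 0 = 0 := by
  funext F'
  simp [diffFun]

theorem diffFun_add {n : ℕ} (G : SimpleGraph (Fin n)) (k : ℕ) (x y : Chain G (k + 1)) :
    diffFun G k (x + y) = diffFun G k x + diffFun G k y := by
  funext F'
  simp [diffFun, smul_add, Finset.sum_add_distrib]

/-- The differential as a homomorphism. -/
noncomputable def diff {n : ℕ} (G : SimpleGraph (Fin n)) (k : ℕ) :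
    Chain G (k + 1) →+ Chain G k where
  toFun := diffFun G k
  map_zero' := diffFun_zero G k
  map_add' := diffFun_add G k

/-- The `k`-cycles. -/
noncomputable def cycles {n : ℕ} (G : SimpleGraph (Fin n)) : (k : ℕ) → AddSubgroup (Chain G k)
  | 0 => ⊤
  | k + 1 => (diff G k).ker

/-- The `k`-boundaries. -/
noncomputable def boundaries {n : ℕ} (G : SimpleGraph (Fin n)) (k : ℕ) : AddSubgroup (Chain G k) :=
  (diff G k).range

/-- The homology `H_k(G; ℤ)`: cycles modulo boundaries. -/
abbrev Homology {n : ℕ} (G : SimpleGraph (Fin n)) (k : ℕ) : Type :=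
  cycles G k ⧸ (boundaries G k).addSubgroupOf (cycles G k)

/-- `s` is the homological span of `G`: `s = k + 1` with `k` the largest index such that
`H_k(G; ℤ) ≠ 0`. -/
def IsSpan {n : ℕ} (G : SimpleGraph (Fin n)) (s : ℕ) : Prop :=
  ∃ k, IsGreatest {k | Nontrivial (Homology G k)} k ∧ s = k + 1

/-- The subgraph `H` has no cut vertex: no vertex of `H` whose deletion increases the number of
connected components. -/
def NoCutVertex {V : Type*} {G : SimpleGraph V} (H : G.Subgraph) : Prop :=
  ∀ v ∈ H.verts, Nat.card (H.deleteVerts {v}).coe.ConnectedComponent ≤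
    Nat.card H.coe.ConnectedComponent

/-- A block of `G`: a maximal connected subgraph with no cut vertex. -/
def IsBlock {V : Type*} {G : SimpleGraph V} (H : G.Subgraph) : Prop :=
  Maximal (fun H : G.Subgraph => H.Connected ∧ NoCutVertex H) H

/-- The number of blocks. -/
noncomputable def numBlocks {V : Type*} (G : SimpleGraph V) : ℕ :=
  Nat.card {H : G.Subgraph // IsBlock H}

/-- The number of connected components. -/
noncomputable def numComponents {V : Type*} (G : SimpleGraph V) : ℕ :=
  Nat.card G.ConnectedComponent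

end Pool.Agent.SpanHom
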