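import Mathlib
import Pool.Agent.SpanHom.Defs
import Pool.Agent.SpanHom.Complex

set_option autoImplicit false

namespace Pool.Agent.SpanHom

open Equiv

variable {n : ℕ}

theorem transfer_apply {F F' : Finset (Pair n)} (h : F' ⊆ F) (x : M F) (g : Perm (Fin n)) :
    transfer h x (QuotientGroup.mk g) = x (QuotientGroup.mk g) := by
  classical
  induction x using Finsupp.induction_linear with
  | zero => simp
  | add x y hx hy => rw [map_add, Finsupp.add_apply, Finsupp.add_apply, hx, hy]
  | single c z =>
    unfold transfer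
    rw [Finsupp.liftAddHom_apply_single, zmultiplesHom_apply, Finsupp.smul_apply,
      Finsupp.finsetSum_apply]
    simp only [Finsupp.single_apply, smul_eq_mul]
    rw [Finset.sum_ite_eq']
    simp only [Finset.mem_filter, Finset.mem_univ, true_and]
    have : Subgroup.quotientMapOfLE (young_mono h) (QuotientGroup.mk g) = QuotientGroup.mk g := rfl
    rw [this]
    by_cases hc : (QuotientGroup.mk g : Perm (Fin n) ⧸ young F) = c
    · simp [hc]
    · simp [hc, Ne.symm hc]

/-- The functions invariant under right translation by the Young subgroup. -/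
def invs {n : ℕ} (R : Type*) [AddCommGroup R] (F : Finset (Pair n)) :
    AddSubgroup (Perm (Fin n) → R) where
  carrier := {φ | ∀ g, ∀ h ∈ young F, φ (g * h) = φ g}
  zero_mem' := fun _ _ _ => rfl
  add_mem' := fun {a b} ha hb g h hh => by
    simp only [Pi.add_apply]
    rw [ha g h hh, hb g h hh]
  neg_mem' := fun {a} ha g h hh => by
    simp only [Pi.neg_apply]
    rw [ha g h hh]

theorem invs_antitone (R : Type*) [AddCommGroup R] :
    Antitone (invs (n := n) R) := fun _ _ hFG _ hφ g h hh => hφ g h (young_mono hFG hh)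

/-- the function of an element of the permutation module -/
noncomputable def toF {n : ℕ} {F : Finset (Pair n)} (x : M F) : Perm (Fin n) → ℤ :=
  fun g => x (QuotientGroup.mk g)

theorem toF_mem {F : Finset (Pair n)} (x : M F) : toF x ∈ invs ℤ F := by
  intro g h hh
  unfold toF
  rw [QuotientGroup.mk_mul_of_mem g hh]

theorem toF_inj {F : Finset (Pair n)} {x y : M F} (h : toF x = toF y) : x = y := by
  ext c
  induction c using QuotientGroup.induction_on with
  | H g => exact congrFun h g

/-- the element of the permutation module given by an invariant function -/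
noncomputable def ofF {n : ℕ} {F : Finset (Pair n)} (φ : Perm (Fin n) → ℤ) (hφ : φ ∈ invs ℤ F) : M F :=
  Finsupp.equivFunOnFinite.symm (fun c => Quotient.liftOn' c φ fun a b hab => by
    rw [QuotientGroup.leftRel_apply] at hab
    have := hφ a _ hab
    rw [mul_inv_cancel_left] at this
    exact this.symm)

theorem toF_ofF {F : Finset (Pair n)} (φ : Perm (Fin n) → ℤ) (hφ : φ ∈ invs ℤ F) :
    toF (ofF φ hφ) = φ := by
  funext g
  rfl

theorem toF_add {F : Finset (Pair n)} (x y : M F) : toF (x + y) = toF x + toF y := rfl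

theorem toF_zero {F : Finset (Pair n)} : toF (0 : M F) = 0 := rfl

theorem toF_zsmul {F : Finset (Pair n)} (m : ℤ) (x : M F) : toF (m • x) = m • toF x := rfl

theorem toF_sum {F : Finset (Pair n)} {ι : Type*} (s : Finset ι) (x : ι → M F) :
    toF (∑ i ∈ s, x i) = ∑ i ∈ s, toF (x i) := by
  classical
  induction s using Finset.induction_on with
  | empty => simp [toF_zero]
  | insert a s ha ih => rw [Finset.sum_insert ha, Finset.sum_insert ha, toF_add, ih]

theorem toF_transfer {F F' : Finset (Pair n)} (h : F' ⊆ F) (x : M F) :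
    toF (transfer h x) = toF x := by
  funext g
  exact transfer_apply h x g

/-- from chains to families of functions -/
noncomputable def toChn {n : ℕ} {G : SimpleGraph (Fin n)} {k : ℕ} (x : Chain G k) :
    Finset (Pair n) → (Perm (Fin n) → ℤ) := by
  classical exact fun F => if h : F ⊆ edges G ∧ F.card = k then toF (x ⟨F, h⟩) else 0

theorem toChn_isChn {G : SimpleGraph (Fin n)} {k : ℕ} (x : Chain G k) :
    IsChn (edges G) (invs ℤ) k (toChn x) := by
  classical
  refine ⟨fun F => ?_, fun F hF => ?_⟩
  · unfold toChn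
    split_ifs with h
    · exact toF_mem _
    · exact zero_mem _
  · unfold toChn at hF
    split_ifs at hF with h
    · exact h
    · exact absurd rfl hF

theorem toChn_inj {G : SimpleGraph (Fin n)} {k : ℕ} {x y : Chain G k} (h : toChn x = toChn y) :
    x = y := by
  classical
  funext ⟨F, hF⟩
  have := congrFun h F
  unfold toChn at this
  rw [dif_pos hF, dif_pos hF] at this
  exact toF_inj this

theorem exists_toChn {G : SimpleGraph (Fin n)} {k : ℕ} {φ : Finset (Pair n) → (Perm (Fin n) → ℤ)}
    (hφ : IsChn (edges G) (invs ℤ) k φ) : ∃ x : Chain G k, toChn x = φ := by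
  classical
  refine ⟨fun F => ofF (φ F.1) (hφ.mem F.1), ?_⟩
  funext F
  unfold toChn
  split_ifs with h
  · exact toF_ofF _ _
  · by_contra h1
    exact h (hφ.supp F (Ne.symm h1))

theorem toChn_diff {G : SimpleGraph (Fin n)} {k : ℕ} (x : Chain G (k + 1)) :
    toChn (diff G k x) = bd (edges G) (toChn x) := by
  classical
  funext F
  by_cases hF : F ⊆ edges G ∧ F.card = k
  · unfold toChn
    rw [dif_pos hF]
    simp only [diff, diffFun, AddMonoidHom.coe_mk, ZeroHom.coe_mk]
    rw [toF_sum]
    unfold bd
    rw [← Finset.sum_coe_sort (edges G \ F)]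
    refine Finset.sum_congr rfl fun e _ => ?_
    rw [toF_zsmul, toF_transfer]
    have he := Finset.mem_sdiff.mp e.2
    have h2 : insert e.1 F ⊆ edges G ∧ (insert e.1 F).card = k + 1 :=
      ⟨Finset.insert_subset he.1 hF.1, by rw [Finset.card_insert_of_notMem he.2, hF.2]⟩
    simp only [dif_pos h2]
    rfl
  · have h1 : toChn (diff G k x) F = 0 := by
      unfold toChn
      rw [dif_neg hF]
    rw [h1]
    by_contra h
    exact hF (((toChn_isChn x).bd (invs_antitone ℤ)).supp F (Ne.symm h))

theorem toChn_zero {G : SimpleGraph (Fin n)} {k : ℕ} : toChn (0 : Chain G k) = 0 := by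
  classical
  funext F
  unfold toChn
  split_ifs with h
  · rfl
  · rfl

theorem mem_cycles {G : SimpleGraph (Fin n)} {k : ℕ} (x : Chain G k) :
    x ∈ cycles G k ↔ bd (edges G) (toChn x) = 0 := by
  classical
  cases k with
  | zero =>
    simp only [cycles, AddSubgroup.mem_top, true_iff]
    funext F
    unfold bd
    refine Finset.sum_eq_zero fun e he => ?_
    have : toChn x (insert e F) = 0 := by
      unfold toChn
      rw [dif_neg]
      rintro ⟨_, h⟩
      rw [Finset.card_insert_of_notMem (Finset.mem_sdiff.mp he).2] at h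
      omega
    rw [this, smul_zero]
  | succ k =>
    simp only [cycles, AddMonoidHom.mem_ker]
    rw [← toChn_diff]
    constructor
    · intro h; rw [h, toChn_zero]
    · intro h; apply toChn_inj; rw [h, toChn_zero]

theorem nontrivial_homology_iff {G : SimpleGraph (Fin n)} {k : ℕ} :
    Nontrivial (Homology G k) ↔ ¬ Exact (edges G) (invs ℤ) k := by
  rw [← not_subsingleton_iff_nontrivial, not_iff_not]
  rw [QuotientAddGroup.subsingleton_iff, AddSubgroup.addSubgroupOf_eq_top]
  constructor
  · intro h φ hφ hb
    obtain ⟨x, rfl⟩ := exists_toChn hφ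
    obtain ⟨y, hy⟩ := h ((mem_cycles x).mpr hb)
    refine ⟨toChn y, toChn_isChn y, ?_⟩
    rw [← toChn_diff, hy]
  · intro h x hx
    obtain ⟨φ, hφ, hφ'⟩ := h (toChn x) (toChn_isChn x) ((mem_cycles x).mp hx)
    obtain ⟨y, rfl⟩ := exists_toChn hφ
    refine ⟨y, toChn_inj ?_⟩
    rw [toChn_diff, hφ']

end Pool.Agent.SpanHom
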