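import Mathlib
import Pool.Agent.SpanHom.Defs
import Pool.Agent.SpanHom.Complex
import Pool.Agent.SpanHom.Bridge

set_option autoImplicit false

namespace Pool.Agent.SpanHom

open Equiv

section Abstract

variable {α : Type*} [LinearOrder α] {W : Type*} [AddCommGroup W]

/-- the top degree is exact -/
theorem exact_card {E : Finset α} (A : Finset α → AddSubgroup W) (hE : E.Nonempty) :
    Exact E A E.card := by
  intro x hx hbx
  have h0 : x = 0 := by
    funext F
    by_contra h
    obtain ⟨h1, h2⟩ := hx.supp F h
    have h3 : F = E := Finset.eq_of_subset_of_card_le h1 h2.ge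
    subst h3
    obtain ⟨e, he⟩ := hE
    have h4 := congrFun hbx (F.erase e)
    unfold bd at h4
    have h5 : F \ F.erase e = {e} := by
      ext a
      simp only [Finset.mem_sdiff, Finset.mem_erase, Finset.mem_singleton, not_and_or, not_not]
      constructor
      · rintro ⟨h6, h7 | h7⟩
        · exact h7
        · exact absurd h6 h7
      · rintro rfl
        exact ⟨he, Or.inl rfl⟩
    rw [h5, Finset.sum_singleton, Finset.insert_erase he] at h4
    apply h
    simp only [Pi.zero_apply] at h4
    have h6 : sgn e (F.erase e) • (sgn e (F.erase e) • x F) = 0 := by rw [h4, smul_zero]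
    rwa [smul_smul, sgn_mul_self, one_smul] at h6
  refine ⟨0, isChn_zero _ _ _, ?_⟩
  rw [bd_zero, h0]

/-- above the number of edges everything is exact -/
theorem exact_of_card_lt {E : Finset α} (A : Finset α → AddSubgroup W) {k : ℕ} (hE : E.card < k) :
    Exact E A k := by
  intro x hx hbx
  refine ⟨0, isChn_zero _ _ _, ?_⟩
  rw [bd_zero]
  funext F
  by_contra h
  obtain ⟨h1, h2⟩ := hx.supp F (Ne.symm h)
  have := Finset.card_le_card h1
  omega

theorem exact_upper (A : Finset α → AddSubgroup W) (hA : Antitone A) (rk : Finset α → ℕ)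
    (P : ∀ (F : Finset α) (e : α), (∀ G, F ⊆ G → A G ≤ A (insert e G)) ∨ rk (insert e F) < rk F)
    (E : Finset α) :
    ∀ (F₀ : Finset α) (k : ℕ), 1 ≤ k → rk F₀ ≤ k → Exact E (fun F => A (F₀ ∪ F)) k := by
  have hA' : ∀ F₀ : Finset α, Antitone (fun F => A (F₀ ∪ F)) := fun F₀ F G h =>
    hA (Finset.union_subset_union_right h)
  have hloop : ∀ (e : α) (E' F₀ : Finset α) (k : ℕ), e ∉ E' → (∀ G, F₀ ⊆ G → A G ≤ A (insert e G)) →
      Exact (insert e E') (fun F => A (F₀ ∪ F)) k := by
    intro e E' F₀ k he h
    refine exact_insert_loop he (hA' F₀) (fun F => ?_) k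
    have := h (F₀ ∪ F) Finset.subset_union_left
    rwa [Finset.union_insert]
  induction E using Finset.induction_on with
  | empty =>
    intro F₀ k hk _
    obtain ⟨k, rfl⟩ : ∃ k', k = k' + 1 := ⟨k - 1, by omega⟩
    exact exact_empty_succ _ k
  | insert e E he ih =>
    intro F₀ k hk hrk
    rcases P F₀ e with h | h
    · exact hloop e E F₀ k he h
    · obtain ⟨k, rfl⟩ : ∃ k', k = k' + 1 := ⟨k - 1, by omega⟩
      have hsh : shift e (fun F => A (F₀ ∪ F)) = fun F => A (insert e F₀ ∪ F) := by
        funext F
        show A (F₀ ∪ insert e F) = A (insert e F₀ ∪ F)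
        rw [Finset.union_insert, Finset.insert_union]
      rcases Nat.eq_zero_or_pos k with hk0 | hk0
      · subst hk0
        have hrk0 : rk (insert e F₀) = 0 := by omega
        rcases E.eq_empty_or_nonempty with hE | ⟨e', he'⟩
        · subst hE
          have := exact_card (E := insert e (∅ : Finset α)) (fun F => A (F₀ ∪ F)) (by simp)
          simpa using this
        · refine exact_insert he (hA' F₀) (ih F₀ _ hk hrk) ?_
          rw [hsh, ← Finset.insert_erase he']
          refine hloop e' _ _ _ (Finset.notMem_erase _ _) ?_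
          rcases P (insert e F₀) e' with h2 | h2
          · exact h2
          · omega
      · refine exact_insert he (hA' F₀) (ih F₀ _ hk hrk) ?_
        rw [hsh]
        exact ih _ _ hk0 (by omega)

end Abstract

variable {n : ℕ}

/-- functions constant along the edges in `F` -/
def K (F : Finset (Pair n)) : Submodule ℚ (Fin n → ℚ) where
  carrier := {a | ∀ e ∈ F, a (ofLex e).1 = a (ofLex e).2}
  zero_mem' := fun _ _ => rfl
  add_mem' := fun {a b} ha hb e he => by
    simp only [Pi.add_apply]
    rw [ha e he, hb e he]
  smul_mem' := fun c a ha e he => by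
    simp only [Pi.smul_apply]
    rw [ha e he]

theorem mem_K {F : Finset (Pair n)} {a : Fin n → ℚ} :
    a ∈ K F ↔ ∀ e ∈ F, a (ofLex e).1 = a (ofLex e).2 := Iff.rfl

theorem K_antitone : Antitone (K (n := n)) := fun _ _ hFG _ ha e he => ha e (hFG he)

theorem const_of_reachable {F : Finset (Pair n)} {a : Fin n → ℚ} (ha : a ∈ K F) {x y : Fin n}
    (h : (graphOf F).Reachable x y) : a x = a y := by
  obtain ⟨w⟩ := h
  induction w with
  | nil => rfl
  | cons hadj _ ih =>
    rw [← ih]
    simp only [graphOf, SimpleGraph.fromRel_adj] at hadj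
    rcases hadj.2 with h | h
    · exact ha _ h
    · exact (ha _ h).symm

theorem reachable_of_adj {V : Type*} {G H : SimpleGraph V}
    (h : ∀ x y, G.Adj x y → H.Reachable x y) {x y : V} (hxy : G.Reachable x y) :
    H.Reachable x y := by
  obtain ⟨w⟩ := hxy
  induction w with
  | nil => exact SimpleGraph.Reachable.refl _
  | cons hadj _ ih => exact (h _ _ hadj).trans ih

theorem reachable_insert {F : Finset (Pair n)} {e : Pair n}
    (he : (graphOf F).Reachable (ofLex e).1 (ofLex e).2) {x y : Fin n}
    (h : (graphOf (insert e F)).Reachable x y) : (graphOf F).Reachable x y := by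
  refine reachable_of_adj (fun x y hxy => ?_) h
  simp only [graphOf, SimpleGraph.fromRel_adj, Finset.mem_insert] at hxy
  obtain ⟨hne, (h1 | h1) | (h1 | h1)⟩ := hxy
  · rw [← h1] at he; exact he
  · exact SimpleGraph.Adj.reachable (by
      simp only [graphOf, SimpleGraph.fromRel_adj]; exact ⟨hne, Or.inl h1⟩)
  · rw [← h1] at he; exact he.symm
  · exact SimpleGraph.Adj.reachable (by
      simp only [graphOf, SimpleGraph.fromRel_adj]; exact ⟨hne, Or.inr h1⟩)

theorem rank_dichotomy (R : Type*) [AddCommGroup R] (F : Finset (Pair n)) (e : Pair n) :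
    (∀ G, F ⊆ G → invs R G ≤ invs R (insert e G)) ∨
      Module.finrank ℚ (K (insert e F)) < Module.finrank ℚ (K F) := by
  classical
  by_cases h : (graphOf F).Reachable (ofLex e).1 (ofLex e).2
  · left
    intro G hG φ hφ g p hp
    exact hφ g p fun x => reachable_insert (h.mono (graphOf_mono hG)) (hp x)
  · right
    refine Submodule.finrank_lt_finrank_of_lt (lt_of_le_of_ne (K_antitone (Finset.subset_insert _ _)) ?_)
    intro heq
    let a : Fin n → ℚ := fun x => if (graphOf F).Reachable (ofLex e).1 x then 1 else 0
    have ha : a ∈ K F := by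
      intro f hf
      by_cases hne : (ofLex f).1 = (ofLex f).2
      · rw [hne]
      have hadj : (graphOf F).Adj (ofLex f).1 (ofLex f).2 := by
        simp only [graphOf, SimpleGraph.fromRel_adj]; exact ⟨hne, Or.inl hf⟩
      have : (graphOf F).Reachable (ofLex e).1 (ofLex f).1 ↔
          (graphOf F).Reachable (ofLex e).1 (ofLex f).2 :=
        ⟨fun h => h.trans hadj.reachable, fun h => h.trans hadj.symm.reachable⟩
      simp only [a, this]
    rw [← heq] at ha
    have h1 := ha e (Finset.mem_insert_self _ _)
    simp only [a, if_pos (SimpleGraph.Reachable.refl _), if_neg h] at h1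
    exact one_ne_zero h1

theorem finrank_K_pos (hn : 1 ≤ n) (F : Finset (Pair n)) : 1 ≤ Module.finrank ℚ (K F) := by
  have : (fun _ => 1 : Fin n → ℚ) ∈ K F := fun _ _ => rfl
  rw [Nat.one_le_iff_ne_zero]
  intro h
  rw [Submodule.finrank_eq_zero] at h
  rw [h, Submodule.mem_bot] at this
  have h1 := congrFun this ⟨0, by omega⟩
  simp at h1

/-- vanishing of homology in degrees at least `n - 1` -/
theorem exact_of_ge (R : Type*) [AddCommGroup R] (hn : 2 ≤ n) (E : Finset (Pair n)) {k : ℕ}
    (hk : n - 1 ≤ k) : Exact E (invs R) k := by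
  have := exact_upper (invs R) (invs_antitone R) (fun F => Module.finrank ℚ (K F) - 1)
    (fun F e => by
      rcases rank_dichotomy R F e with h | h
      · exact Or.inl h
      · right
        have := finrank_K_pos (by omega) (insert e F)
        show Module.finrank ℚ (K (insert e F)) - 1 < Module.finrank ℚ (K F) - 1
        omega) E ∅ k (by omega) (by
      show Module.finrank ℚ (K (∅ : Finset (Pair n))) - 1 ≤ k
      have := Submodule.finrank_le (K (∅ : Finset (Pair n)))
      rw [Module.finrank_fin_fun] at this
      omega)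
  simpa using this

end Pool.Agent.SpanHom
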