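import Mathlib
import Pool.Agent.SpanHom.Defs
import Pool.Agent.SpanHom.Complex
import Pool.Agent.SpanHom.Bridge
import Pool.Agent.SpanHom.Upper

set_option autoImplicit false

namespace Pool.Agent.SpanHom

open Equiv

variable {n : ℕ}

/-! ### Dimensions of `D ⊓ K S` -/

/-- the dimension of the functions in `D` constant along `S` -/
noncomputable def dl (D : Submodule ℚ (Fin n → ℚ)) (S : Finset (Pair n)) : ℕ :=
  Module.finrank ℚ (D ⊓ K S : Submodule ℚ (Fin n → ℚ))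

theorem K_union (S T : Finset (Pair n)) : K (S ∪ T) = K S ⊓ K T := by
  ext a
  simp only [Submodule.mem_inf, mem_K, Finset.mem_union]
  constructor
  · intro h
    exact ⟨fun e he => h e (Or.inl he), fun e he => h e (Or.inr he)⟩
  · rintro ⟨h1, h2⟩ e (he | he)
    · exact h1 e he
    · exact h2 e he

theorem K_insert (e : Pair n) (S : Finset (Pair n)) : K (insert e S) = K {e} ⊓ K S := by
  rw [Finset.insert_eq, K_union]

theorem K_empty : K (∅ : Finset (Pair n)) = ⊤ := by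
  ext a
  simp [mem_K]

theorem dl_empty (D : Submodule ℚ (Fin n → ℚ)) : dl D ∅ = Module.finrank ℚ D := by
  unfold dl
  rw [K_empty, inf_top_eq]

theorem dl_antitone (D : Submodule ℚ (Fin n → ℚ)) : Antitone (dl D) := fun _ _ h =>
  Submodule.finrank_mono (inf_le_inf_left _ (K_antitone h))

theorem dl_super (D : Submodule ℚ (Fin n → ℚ)) (S T : Finset (Pair n)) :
    dl D S + dl D T ≤ dl D (S ∪ T) + dl D (S ∩ T) := by
  unfold dl
  rw [← Submodule.finrank_sup_add_finrank_inf_eq, add_comm]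
  refine add_le_add (le_of_eq ?_) (Submodule.finrank_mono ?_)
  · rw [K_union, ← inf_inf_distrib_left]
  · exact sup_le (inf_le_inf_left _ (K_antitone Finset.inter_subset_left))
      (inf_le_inf_left _ (K_antitone Finset.inter_subset_right))

theorem dl_inf (D : Submodule ℚ (Fin n → ℚ)) (e : Pair n) (S : Finset (Pair n)) :
    dl (D ⊓ K {e}) S = dl D (insert e S) := by
  unfold dl
  rw [K_insert, inf_assoc]

theorem le_dl_singleton (D : Submodule ℚ (Fin n → ℚ)) (e : Pair n) :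
    Module.finrank ℚ D ≤ dl D {e} + 1 := by
  unfold dl
  let f : (Fin n → ℚ) →ₗ[ℚ] ℚ :=
    (LinearMap.proj (ofLex e).1 : (Fin n → ℚ) →ₗ[ℚ] ℚ) - LinearMap.proj (ofLex e).2
  have hf : K {e} = f.ker := by
    ext a
    simp [mem_K, f, sub_eq_zero]
  have h1 := LinearMap.finrank_range_add_finrank_ker f
  have h2 : Module.finrank ℚ f.range ≤ 1 := by
    have := Submodule.finrank_le f.range
    rwa [Module.finrank_self] at this
  have h3 := Submodule.finrank_sup_add_finrank_inf_eq D (K {e})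
  have h4 := Submodule.finrank_le (D ⊔ K {e})
  rw [Module.finrank_fin_fun] at h1 h4
  rw [hf] at h3 h4 ⊢
  omega

/-- the condition that the pair `(D, S)` is connected -/
structure Good (D : Submodule ℚ (Fin n → ℚ)) (S : Finset (Pair n)) : Prop where
  pos : 1 ≤ Module.finrank ℚ D
  bot : S.Nonempty → dl D S = 0
  conn : ∀ A, A ⊆ S → A.Nonempty → (S \ A).Nonempty → dl D A + dl D (S \ A) < Module.finrank ℚ D

theorem tutte_aux {D : Submodule ℚ (Fin n → ℚ)} {e : Pair n} {S : Finset (Pair n)} (he : e ∉ S)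
    (hg : Good D (insert e S)) {A₁ A₂ T₁ T₂ : Finset (Pair n)} (h1 : A₁ ∪ T₁ = S)
    (h2 : A₂ ∪ T₂ = S) (d1 : Disjoint A₁ T₁) (d2 : Disjoint A₂ T₂)
    (n1 : (A₁ ∩ A₂).Nonempty) (n2 : (T₁ ∩ T₂).Nonempty)
    (b1 : Module.finrank ℚ D ≤ dl D A₁ + dl D T₁)
    (b2 : Module.finrank ℚ D ≤ dl D (insert e A₂) + dl D (insert e T₂) + 1) : False := by
  have mem : ∀ x, x ∈ S ↔ x ∈ A₁ ∨ x ∈ T₁ := fun x => by rw [← h1, Finset.mem_union]
  have mem2 : ∀ x, x ∈ S ↔ x ∈ A₂ ∨ x ∈ T₂ := fun x => by rw [← h2, Finset.mem_union]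
  have nd1 : ∀ x, x ∈ A₁ → x ∉ T₁ := fun x h h' => Finset.disjoint_left.mp d1 h h'
  have nd2 : ∀ x, x ∈ A₂ → x ∉ T₂ := fun x h h' => Finset.disjoint_left.mp d2 h h'
  have key : ∀ {A₁ A₂ T₁ T₂ : Finset (Pair n)}, A₁ ∪ T₁ = S → A₂ ∪ T₂ = S →
      Disjoint A₁ T₁ → Disjoint A₂ T₂ → (T₁ ∩ T₂).Nonempty →
      dl D (A₁ ∪ insert e A₂) + dl D (T₁ ∩ T₂) < Module.finrank ℚ D := by
    intro A₁ A₂ T₁ T₂ h1 h2 d1 d2 n2
    have := hg.conn (T₁ ∩ T₂) (by
      intro x hx
      rw [Finset.mem_inter] at hx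
      rw [← h1]
      simp [hx.1]) n2 ⟨e, by
      rw [Finset.mem_sdiff]
      refine ⟨Finset.mem_insert_self _ _, fun hx => he ?_⟩
      rw [Finset.mem_inter] at hx
      rw [← h1]; simp [hx.1]⟩
    have heq : insert e S \ (T₁ ∩ T₂) = A₁ ∪ insert e A₂ := by
      ext x
      have m1 : x ∈ S ↔ x ∈ A₁ ∨ x ∈ T₁ := by rw [← h1, Finset.mem_union]
      have m2 : x ∈ S ↔ x ∈ A₂ ∨ x ∈ T₂ := by rw [← h2, Finset.mem_union]
      have nd1 : x ∈ A₁ → x ∉ T₁ := fun h h' => Finset.disjoint_left.mp d1 h h'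
      have nd2 : x ∈ A₂ → x ∉ T₂ := fun h h' => Finset.disjoint_left.mp d2 h h'
      have he' : x = e → x ∉ S := fun h => h ▸ he
      simp only [Finset.mem_sdiff, Finset.mem_insert, Finset.mem_inter, Finset.mem_union]
      tauto
    rw [heq] at this
    omega
  have k1 := key h1 h2 d1 d2 n2
  have k2 := key (A₁ := T₁) (A₂ := T₂) (T₁ := A₁) (T₂ := A₂) (by rw [Finset.union_comm, h1])
    (by rw [Finset.union_comm, h2]) d1.symm d2.symm n1
  have s1 := dl_super D A₁ (insert e A₂)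
  have s2 := dl_super D T₁ (insert e T₂)
  have e1 : A₁ ∩ insert e A₂ = A₁ ∩ A₂ := by
    rw [Finset.inter_insert_of_notMem]
    intro h
    exact he (by rw [← h1]; simp [h])
  have e2 : T₁ ∩ insert e T₂ = T₁ ∩ T₂ := by
    rw [Finset.inter_insert_of_notMem]
    intro h
    exact he (by rw [← h1]; simp [h])
  rw [e1] at s1
  rw [e2] at s2
  omega

theorem exists_sep {D : Submodule ℚ (Fin n → ℚ)} {S : Finset (Pair n)}
    (hpos : 1 ≤ Module.finrank ℚ D) (hbot : dl D S = 0) (hg : ¬ Good D S) :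
    ∃ A ⊆ S, A.Nonempty ∧ (S \ A).Nonempty ∧ Module.finrank ℚ D ≤ dl D A + dl D (S \ A) := by
  by_contra hcon
  push Not at hcon
  exact hg ⟨hpos, fun _ => hbot, fun A h1 h2 h3 => hcon A h1 h2 h3⟩

theorem tutte {D : Submodule ℚ (Fin n → ℚ)} {e : Pair n} {S : Finset (Pair n)} (he : e ∉ S)
    (hS : S.Nonempty) (hg : Good D (insert e S)) (hr : 2 ≤ Module.finrank ℚ D)
    (hng : ¬ Good D S) : Good (D ⊓ K {e}) S := by
  have hsd : insert e S \ {e} = S := by
    rw [Finset.insert_sdiff_of_mem _ (Finset.mem_singleton_self e)]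
    rw [Finset.sdiff_singleton_eq_erase, Finset.erase_eq_of_notMem he]
  have c1 := hg.conn {e} (by simp) (by simp) (by rw [hsd]; exact hS)
  rw [hsd] at c1
  have c2 := le_dl_singleton D e
  have c3 : dl D S = 0 := by omega
  obtain ⟨A₁, hA₁, nA₁, nT₁, hsep⟩ := exists_sep (by omega) c3 hng
  refine ⟨?_, ?_, ?_⟩
  · show 1 ≤ dl D {e}
    omega
  · intro _
    rw [dl_inf]
    exact hg.bot (by simp)
  · intro A₂ hA₂ nA₂ nT₂
    by_contra hcon
    rw [not_lt, dl_inf, dl_inf] at hcon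
    change dl D {e} ≤ _ at hcon
    have u1 : A₁ ∪ (S \ A₁) = S := Finset.union_sdiff_of_subset hA₁
    have u2 : A₂ ∪ (S \ A₂) = S := Finset.union_sdiff_of_subset hA₂
    have u2' : (S \ A₂) ∪ A₂ = S := by rw [Finset.union_comm, u2]
    have d1 : Disjoint A₁ (S \ A₁) := Finset.disjoint_sdiff
    have d2 : Disjoint A₂ (S \ A₂) := Finset.disjoint_sdiff
    by_cases p1 : (A₁ ∩ A₂).Nonempty ∧ ((S \ A₁) ∩ (S \ A₂)).Nonempty
    · exact tutte_aux he hg u1 u2 d1 d2 p1.1 p1.2 hsep (by omega)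
    · by_cases p2 : (A₁ ∩ (S \ A₂)).Nonempty ∧ ((S \ A₁) ∩ A₂).Nonempty
      · exact tutte_aux he hg u1 u2' d1 d2.symm p2.1 p2.2 hsep (by omega)
      · obtain ⟨a1, ha1⟩ := nA₁
        obtain ⟨t1, ht1⟩ := nT₁
        obtain ⟨a2, ha2⟩ := nA₂
        obtain ⟨t2, ht2⟩ := nT₂
        rw [Finset.mem_sdiff] at ht1 ht2
        rw [not_and_or, Finset.not_nonempty_iff_eq_empty, Finset.not_nonempty_iff_eq_empty] at p1 p2
        have q : ∀ {P Q : Finset (Pair n)} {x : Pair n}, P ∩ Q = ∅ → x ∈ P → x ∉ Q := by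
          intro P Q x h hx hx'
          have : x ∈ P ∩ Q := Finset.mem_inter.mpr ⟨hx, hx'⟩
          rw [h] at this
          simp at this
        rcases p1 with p1 | p1 <;> rcases p2 with p2 | p2
        · have := q p2 ha1
          rw [Finset.mem_sdiff] at this
          have h3 := q p1 ha1
          exact this ⟨hA₁ ha1, h3⟩
        · by_cases h : a2 ∈ A₁
          · exact q p1 h ha2
          · exact q p2 (Finset.mem_sdiff.mpr ⟨hA₂ ha2, h⟩) ha2
        · by_cases h : t2 ∈ A₁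
          · exact q p2 h (Finset.mem_sdiff.mpr ht2)
          · exact q p1 (Finset.mem_sdiff.mpr ⟨ht2.1, h⟩) (Finset.mem_sdiff.mpr ht2)
        · by_cases h : t1 ∈ A₂
          · exact q p2 (Finset.mem_sdiff.mpr ht1) h
          · exact q p1 (Finset.mem_sdiff.mpr ht1) (Finset.mem_sdiff.mpr ⟨ht1.1, h⟩)

end Pool.Agent.SpanHom
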