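import Mathlib
import Pool.Agent.SpanHom.Defs
import Pool.Agent.SpanHom.Complex
import Pool.Agent.SpanHom.Bridge
import Pool.Agent.SpanHom.Upper
import Pool.Agent.SpanHom.Tens

set_option autoImplicit false

namespace Pool.Agent.SpanHom

open Equiv

variable {n : ℕ} {J : Type*} [Fintype J] [DecidableEq J]

/-- functions of several variables -/
abbrev T (n : ℕ) (J : Type*) : Type _ := (J → Fin n) → ℚ

/-- the section of `t` in the variable `j` through `σ` -/
def sec (j : J) (σ : J → Fin n) (t : T n J) : Fin n → ℚ := fun x => t (Function.update σ j x)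

theorem sec_add (j : J) (σ : J → Fin n) (t u : T n J) :
    sec j σ (t + u) = sec j σ t + sec j σ u := rfl

theorem sec_sub (j : J) (σ : J → Fin n) (t u : T n J) :
    sec j σ (t - u) = sec j σ t - sec j σ u := rfl

theorem sec_neg (j : J) (σ : J → Fin n) (t : T n J) : sec j σ (-t) = -sec j σ t := rfl

theorem sec_apply_self (j : J) (σ : J → Fin n) (t : T n J) : sec j σ t (σ j) = t σ := by
  unfold sec
  rw [Function.update_eq_self]

/-- functions all of whose sections in the variable `j` lie in `D j` -/
def TD (D : J → Submodule ℚ (Fin n → ℚ)) : AddSubgroup (T n J) where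
  carrier := {t | ∀ j σ, sec j σ t ∈ D j}
  zero_mem' := fun j σ => (D j).zero_mem
  add_mem' := fun ha hb j σ => (D j).add_mem (ha j σ) (hb j σ)
  neg_mem' := fun ha j σ => (D j).neg_mem (ha j σ)

theorem mem_TD {D : J → Submodule ℚ (Fin n → ℚ)} {t : T n J} :
    t ∈ TD D ↔ ∀ j σ, sec j σ t ∈ D j := Iff.rfl

theorem TD_mono {D D' : J → Submodule ℚ (Fin n → ℚ)} (h : ∀ j, D j ≤ D' j) : TD D ≤ TD D' :=
  fun _ ht j σ => h j (ht j σ)

theorem TD_bot {D : J → Submodule ℚ (Fin n → ℚ)} {j : J} (h : D j = ⊥) : TD D = ⊥ := by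
  rw [eq_bot_iff]
  intro t ht
  rw [AddSubgroup.mem_bot]
  funext σ
  have := ht j σ
  rw [h, Submodule.mem_bot] at this
  rw [← sec_apply_self j σ t, this]
  rfl

/-- the family of groups -/
def fam (Cl : J → Finset (Pair n)) (D : J → Submodule ℚ (Fin n → ℚ)) (F : Finset (Pair n)) :
    AddSubgroup (T n J) := TD fun j => D j ⊓ K (F ∩ Cl j)

theorem fam_antitone (Cl : J → Finset (Pair n)) (D : J → Submodule ℚ (Fin n → ℚ)) :
    Antitone (fam Cl D) := fun _ _ h =>
  TD_mono fun _ => inf_le_inf_left _ (K_antitone (Finset.inter_subset_inter_right h))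

theorem shift_fam {Cl : J → Finset (Pair n)} (hcl : ∀ i j, i ≠ j → Disjoint (Cl i) (Cl j))
    (D : J → Submodule ℚ (Fin n → ℚ)) {e : Pair n} {j : J} (he : e ∈ Cl j) :
    shift e (fam Cl D) = fam Cl (Function.update D j (D j ⊓ K {e})) := by
  funext F
  unfold shift fam
  congr 1
  funext i
  by_cases hi : i = j
  · subst hi
    rw [Function.update_self, Finset.insert_inter_of_mem he, K_insert, inf_assoc]
  · rw [Function.update_of_ne hi, Finset.insert_inter_of_notMem]
    exact fun h => Finset.disjoint_left.mp (hcl i j hi) h he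

theorem fam_loop {Cl : J → Finset (Pair n)} (hcl : ∀ i j, i ≠ j → Disjoint (Cl i) (Cl j))
    (D : J → Submodule ℚ (Fin n → ℚ)) {e : Pair n} {j : J} (he : e ∈ Cl j) (h : D j ≤ K {e})
    (F : Finset (Pair n)) : fam Cl D F ≤ fam Cl D (insert e F) := by
  have h1 : fam Cl D (insert e F) = shift e (fam Cl D) F := rfl
  rw [h1, shift_fam hcl D he]
  refine TD_mono fun i => ?_
  by_cases hi : i = j
  · subst hi
    rw [Function.update_self, inf_eq_left.mpr h]
  · rw [Function.update_of_ne hi]

theorem fam_bot (Cl : J → Finset (Pair n)) {D : J → Submodule ℚ (Fin n → ℚ)} {j : J}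
    (h : D j = ⊥) (F : Finset (Pair n)) : fam Cl D F = ⊥ :=
  TD_bot (j := j) (by rw [h, bot_inf_eq])

/-- the expected top degree -/
noncomputable def topdeg (Cl : J → Finset (Pair n)) (D : J → Submodule ℚ (Fin n → ℚ))
    (E : Finset (Pair n)) : ℕ :=
  ∑ j, if (E ∩ Cl j).Nonempty then Module.finrank ℚ (D j) - 1 else 0

theorem exact_insert_any {α : Type*} [LinearOrder α] {W : Type*} [AddCommGroup W] {E : Finset α}
    {e : α} (he : e ∉ E) {A : Finset α → AddSubgroup W} (hA : Antitone A) {k : ℕ} (hk : 1 ≤ k)
    (h1 : Exact E A k) (h2 : Exact E (shift e A) (k - 1)) : Exact (insert e E) A k := by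
  obtain ⟨k, rfl⟩ : ∃ k', k = k' + 1 := ⟨k - 1, by omega⟩
  exact exact_insert he hA h1 h2

theorem finrank_inf_lt {D : Submodule ℚ (Fin n → ℚ)} {e : Pair n} (h : ¬ D ≤ K {e}) :
    Module.finrank ℚ (D ⊓ K {e} : Submodule ℚ (Fin n → ℚ)) < Module.finrank ℚ D :=
  Submodule.finrank_lt_finrank_of_lt (lt_of_le_of_ne inf_le_left fun h1 => h (inf_eq_left.mp h1))

/-- adding an edge changes the intersection with one class -/
theorem insert_inter {Cl : J → Finset (Pair n)} (hcl : ∀ i j, i ≠ j → Disjoint (Cl i) (Cl j))
    {e : Pair n} {j : J} (he : e ∈ Cl j) (E : Finset (Pair n)) (i : J) :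
    (insert e E) ∩ Cl i = if i = j then insert e (E ∩ Cl i) else E ∩ Cl i := by
  split_ifs with hi
  · subst hi
    rw [Finset.insert_inter_of_mem he]
  · rw [Finset.insert_inter_of_notMem]
    exact fun h => Finset.disjoint_left.mp (hcl i j hi) h he

theorem topdeg_mono_set {Cl : J → Finset (Pair n)} (D : J → Submodule ℚ (Fin n → ℚ))
    {E E' : Finset (Pair n)} (h : E ⊆ E') : topdeg Cl D E ≤ topdeg Cl D E' := by
  refine Finset.sum_le_sum fun j _ => ?_
  by_cases h1 : (E ∩ Cl j).Nonempty
  · rw [if_pos h1, if_pos (h1.mono (Finset.inter_subset_inter_right h))]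
  · rw [if_neg h1]; exact Nat.zero_le _

theorem topdeg_update_lt {Cl : J → Finset (Pair n)}
    (D : J → Submodule ℚ (Fin n → ℚ)) {e : Pair n} {j : J} (he : e ∈ Cl j)
    (h : ¬ D j ≤ K {e}) (h1 : D j ⊓ K {e} ≠ ⊥) (E : Finset (Pair n)) :
    topdeg Cl (Function.update D j (D j ⊓ K {e})) E < topdeg Cl D (insert e E) := by
  refine Finset.sum_lt_sum (fun i _ => ?_) ⟨j, Finset.mem_univ _, ?_⟩
  · by_cases h2 : (E ∩ Cl i).Nonempty
    · rw [if_pos h2, if_pos (h2.mono (Finset.inter_subset_inter_right (Finset.subset_insert _ _)))]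
      by_cases hi : i = j
      · subst hi
        rw [Function.update_self]
        have := finrank_inf_lt h
        omega
      · rw [Function.update_of_ne hi]
    · rw [if_neg h2]; exact Nat.zero_le _
  · have hne : (insert e E ∩ Cl j).Nonempty :=
      ⟨e, Finset.mem_inter.mpr ⟨Finset.mem_insert_self _ _, he⟩⟩
    have := finrank_inf_lt h
    have h3 : 1 ≤ Module.finrank ℚ (D j ⊓ K {e} : Submodule ℚ (Fin n → ℚ)) := by
      rw [Nat.one_le_iff_ne_zero]
      intro h4
      exact h1 (Submodule.finrank_eq_zero.mp h4)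
    rw [if_pos hne, Function.update_self]
    split_ifs
    · omega
    · omega

/-- vanishing above the expected top degree -/
theorem exact_fam_of_lt {Cl : J → Finset (Pair n)} (hcl : ∀ i j, i ≠ j → Disjoint (Cl i) (Cl j))
    (E : Finset (Pair n)) :
    ∀ (_ : ∀ e ∈ E, ∃ j, e ∈ Cl j) (D : J → Submodule ℚ (Fin n → ℚ)) (k : ℕ)
      (_ : topdeg Cl D E < k), Exact E (fam Cl D) k := by
  induction E using Finset.induction_on with
  | empty =>
    intro _ D k hk
    obtain ⟨k, rfl⟩ : ∃ k', k = k' + 1 := ⟨k - 1, by omega⟩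
    exact exact_empty_succ _ k
  | insert e E he ih =>
    intro hcov D k hk
    obtain ⟨j, hj⟩ := hcov e (Finset.mem_insert_self _ _)
    have hcov' : ∀ e ∈ E, ∃ j, e ∈ Cl j := fun e he => hcov e (Finset.mem_insert_of_mem he)
    by_cases hD : D j = ⊥
    · exact exact_of_eq_bot fun F _ => fam_bot Cl hD F
    by_cases hl : D j ≤ K {e}
    · exact exact_insert_loop he (fam_antitone _ _) (fam_loop hcl D hj hl) k
    refine exact_insert_any he (fam_antitone _ _) (by omega)
      (ih hcov' D k (lt_of_le_of_lt (topdeg_mono_set D (Finset.subset_insert _ _)) hk)) ?_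
    rw [shift_fam hcl D hj]
    by_cases hD' : D j ⊓ K {e} = ⊥
    · refine exact_of_eq_bot fun F _ => fam_bot Cl (j := j) ?_ F
      rw [Function.update_self, hD']
    · refine ih hcov' _ _ ?_
      have := topdeg_update_lt D hj hl hD' E
      omega

/-! ### Coordinate operators -/

/-- apply the linear map `p` in the variable `j` -/
def app (j : J) (p : (Fin n → ℚ) →ₗ[ℚ] (Fin n → ℚ)) : T n J →+ T n J where
  toFun t σ := p (sec j σ t) (σ j)
  map_zero' := by
    funext σ
    have : sec j σ (0 : T n J) = 0 := rfl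
    rw [this, map_zero]
    rfl
  map_add' t u := by
    funext σ
    rw [sec_add, map_add]
    rfl

theorem sec_app_self (j : J) (p : (Fin n → ℚ) →ₗ[ℚ] (Fin n → ℚ)) (σ : J → Fin n) (t : T n J) :
    sec j σ (app j p t) = p (sec j σ t) := by
  funext x
  show p (sec j (Function.update σ j x) t) (Function.update σ j x j) = _
  have h : sec j (Function.update σ j x) t = sec j σ t := by
    funext y
    unfold sec
    rw [Function.update_idem]
  rw [Function.update_self, h]

theorem linear_apply (p : (Fin n → ℚ) →ₗ[ℚ] (Fin n → ℚ)) (v : Fin n → ℚ) (x : Fin n) :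
    p v x = ∑ y, v y * p (fun z => if y = z then 1 else 0) x := by
  rw [LinearMap.pi_apply_eq_sum_univ p v, Finset.sum_apply]
  rfl

theorem sec_app_ne {i j : J} (hij : i ≠ j) (p : (Fin n → ℚ) →ₗ[ℚ] (Fin n → ℚ)) (σ : J → Fin n)
    (t : T n J) : sec i σ (app j p t) =
      ∑ y, p (fun z => if y = z then 1 else 0) (σ j) • sec i (Function.update σ j y) t := by
  funext x
  show p (sec j (Function.update σ i x) t) (Function.update σ i x j) = _
  rw [Function.update_of_ne hij.symm, linear_apply, Finset.sum_apply]
  refine Finset.sum_congr rfl fun y _ => ?_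
  simp only [sec, Pi.smul_apply, smul_eq_mul]
  rw [mul_comm, Function.update_comm hij]

theorem app_mem {D D' : J → Submodule ℚ (Fin n → ℚ)} {j : J}
    {p : (Fin n → ℚ) →ₗ[ℚ] (Fin n → ℚ)} (hp : ∀ v ∈ D j, p v ∈ D' j) (hD : ∀ i, i ≠ j → D i ≤ D' i)
    {t : T n J} (ht : t ∈ TD D) : app j p t ∈ TD D' := by
  intro i σ
  by_cases hi : i = j
  · subst hi
    rw [sec_app_self]
    exact hp _ (ht i σ)
  · rw [sec_app_ne hi]
    refine (D' i).sum_mem fun y _ => (D' i).smul_mem _ (hD i hi (ht i _))

theorem exists_proj {V : Type*} [AddCommGroup V] [Module ℚ V] {A B : Submodule ℚ V}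
    (h : A ⊓ B = ⊥) : ∃ p : V →ₗ[ℚ] V, (∀ a ∈ A, p a = a) ∧ (∀ b ∈ B, p b = 0) := by
  obtain ⟨A', hA', hc⟩ := (disjoint_iff.mpr (by rw [inf_comm]; exact h) : Disjoint B A).exists_isCompl
  refine ⟨A.subtype ∘ₗ A.projectionOnto A' hc.symm, fun a ha => ?_, fun b hb => ?_⟩
  · show ((A.projectionOnto A' hc.symm) a : V) = a
    have := Submodule.projectionOnto_apply_left hc.symm ⟨a, ha⟩
    rw [this]
  · show ((A.projectionOnto A' hc.symm) b : V) = 0
    have := Submodule.projectionOnto_apply_right hc.symm ⟨b, hA' hb⟩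
    rw [this]
    rfl

/-- a separated class makes everything exact -/
theorem exact_fam_of_sep {Cl : J → Finset (Pair n)} (hcl : ∀ i j, i ≠ j → Disjoint (Cl i) (Cl j))
    {E : Finset (Pair n)} {D : J → Submodule ℚ (Fin n → ℚ)} {j : J} {A : Finset (Pair n)}
    (hA : A ⊆ E ∩ Cl j) (nA : A.Nonempty) (nT : ((E ∩ Cl j) \ A).Nonempty)
    (hbot : dl (D j) (E ∩ Cl j) = 0)
    (hsep : Module.finrank ℚ (D j) ≤ dl (D j) A + dl (D j) ((E ∩ Cl j) \ A)) (k : ℕ) :
    Exact E (fam Cl D) k := by
  set S := E ∩ Cl j with hS
  set B := S \ A with hB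
  have hAB : A ∪ B = S := Finset.union_sdiff_of_subset hA
  have hinf : (D j ⊓ K A) ⊓ (D j ⊓ K B) = ⊥ := by
    rw [← inf_inf_distrib_left, ← K_union, hAB]
    exact Submodule.finrank_eq_zero.mp hbot
  have hsup : (D j ⊓ K A) ⊔ (D j ⊓ K B) = D j := by
    refine Submodule.eq_of_le_of_finrank_le (sup_le inf_le_left inf_le_left) ?_
    have := Submodule.finrank_sup_add_finrank_inf_eq (D j ⊓ K A) (D j ⊓ K B)
    rw [hinf, finrank_bot] at this
    unfold dl at hsep
    omega
  obtain ⟨p, hp1, hp2⟩ := exists_proj hinf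
  have hloop : ∀ A' : Finset (Pair n), A' ⊆ S → A'.Nonempty →
      Exact E (fam Cl (Function.update D j (D j ⊓ K A'))) k := by
    rintro A' hA' ⟨f, hf⟩
    have hfS := hA' hf
    rw [hS, Finset.mem_inter] at hfS
    rw [← Finset.insert_erase hfS.1]
    refine exact_insert_loop (Finset.notMem_erase _ _) (fam_antitone _ _)
      (fam_loop hcl _ hfS.2 ?_) k
    rw [Function.update_self]
    exact inf_le_right.trans (K_antitone (by simpa using hf))
  have hdec : ∀ w ∈ D j, ∃ a ∈ D j ⊓ K A, ∃ b ∈ D j ⊓ K B, a + b = w := by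
    intro w hw
    rw [← hsup] at hw
    exact Submodule.mem_sup.mp hw
  have hpw : ∀ F : Finset (Pair n), F ⊆ E → ∀ w ∈ D j ⊓ K (F ∩ Cl j),
      p w ∈ (D j ⊓ K A) ⊓ K (F ∩ Cl j) ∧ w - p w ∈ (D j ⊓ K B) ⊓ K (F ∩ Cl j) := by
    intro F hF w hw
    obtain ⟨a, ha, b, hb, rfl⟩ := hdec w hw.1
    have h1 : p (a + b) = a := by rw [map_add, hp1 a ha, hp2 b hb, add_zero]
    rw [h1, add_sub_cancel_left]
    have ha' : a ∈ K (F ∩ Cl j) := by
      intro e he
      by_cases heA : e ∈ A
      · exact ha.2 e heA
      · have heB : e ∈ B := by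
          rw [hB, hS, Finset.mem_sdiff, Finset.mem_inter]
          rw [Finset.mem_inter] at he
          exact ⟨⟨hF he.1, he.2⟩, heA⟩
        have h2 := hw.2 e he
        have h3 := hb.2 e heB
        simp only [Pi.add_apply] at h2
        linarith
    refine ⟨⟨ha, ha'⟩, ⟨hb, ?_⟩⟩
    have h4 := (K (F ∩ Cl j)).sub_mem hw.2 ha'
    rwa [add_sub_cancel_left] at h4
  refine exact_of_split (A₁ := fam Cl (Function.update D j (D j ⊓ K A)))
    (A₂ := fam Cl (Function.update D j (D j ⊓ K B))) (app j p) ?_ ?_ ?_ ?_
    (hloop A hA nA) (hloop B (by rw [hB]; exact Finset.sdiff_subset) nT)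
  · intro F hF w hw
    refine app_mem (D := fun i => D i ⊓ K (F ∩ Cl i)) (fun v hv => ?_) (fun i hi => ?_) hw
    · rw [Function.update_self]
      exact (hpw F hF v hv).1
    · rw [Function.update_of_ne hi]
  · intro F hF w hw i σ
    show sec i σ w - sec i σ (app j p w) ∈ Function.update D j (D j ⊓ K B) i ⊓ K (F ∩ Cl i)
    by_cases hi : i = j
    · subst hi
      rw [sec_app_self, Function.update_self]
      exact (hpw F hF _ (hw i σ)).2
    · rw [Function.update_of_ne hi]
      refine Submodule.sub_mem _ (hw i σ) ?_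
      rw [sec_app_ne hi]
      exact Submodule.sum_mem _ fun y _ => Submodule.smul_mem _ _ (hw i _)
  · intro F _
    refine TD_mono fun i => ?_
    by_cases hi : i = j
    · subst hi
      rw [Function.update_self]
      exact inf_le_inf_right _ inf_le_left
    · rw [Function.update_of_ne hi]
  · intro F _
    refine TD_mono fun i => ?_
    by_cases hi : i = j
    · subst hi
      rw [Function.update_self]
      exact inf_le_inf_right _ inf_le_left
    · rw [Function.update_of_ne hi]

/-- nonvanishing in the expected top degree -/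
theorem not_exact_fam {Cl : J → Finset (Pair n)} (hcl : ∀ i j, i ≠ j → Disjoint (Cl i) (Cl j))
    (E : Finset (Pair n)) :
    ∀ (_ : ∀ e ∈ E, ∃ j, e ∈ Cl j) (D : J → Submodule ℚ (Fin n → ℚ))
      (_ : ∀ j, Good (D j) (E ∩ Cl j)), ¬ Exact E (fam Cl D) (topdeg Cl D E) := by
  induction E using Finset.induction_on with
  | empty =>
    intro _ D hg
    have h0 : topdeg Cl D ∅ = 0 := by
      unfold topdeg
      simp
    rw [h0]
    have h1 : ∀ j, ∃ v ∈ D j, v ≠ 0 := by
      intro j
      have := (hg j).pos
      by_contra hcon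
      push Not at hcon
      have h2 : D j = ⊥ := by
        rw [eq_bot_iff]
        intro v hv
        rw [Submodule.mem_bot]
        exact hcon v hv
      rw [h2, finrank_bot] at this
      omega
    choose v hv hv0 using h1
    have h2 : ∀ j, ∃ x, v j x ≠ 0 := fun j => Function.ne_iff.mp (hv0 j)
    choose x hx using h2
    refine not_exact_empty (w := fun σ => ∏ j, v j (σ j)) ?_ ?_
    · intro j σ
      refine ⟨?_, by intro e he; simp at he⟩
      have : sec j σ (fun σ => ∏ j, v j (σ j)) = (∏ i ∈ Finset.univ.erase j, v i (σ i)) • v j := by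
        funext y
        simp only [sec, Pi.smul_apply, smul_eq_mul]
        rw [← Finset.prod_erase_mul _ _ (Finset.mem_univ j), Function.update_self]
        congr 1
        refine Finset.prod_congr rfl fun i hi => ?_
        rw [Function.update_of_ne (Finset.ne_of_mem_erase hi)]
      rw [this]
      exact (D j).smul_mem _ (hv j)
    · intro h
      have := congrFun h x
      simp only [Pi.zero_apply] at this
      rw [Finset.prod_eq_zero_iff] at this
      obtain ⟨j, _, hj⟩ := this
      exact hx j hj
  | insert e E he ih =>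
    intro hcov D hg
    obtain ⟨j, hj⟩ := hcov e (Finset.mem_insert_self _ _)
    have hcov' : ∀ e ∈ E, ∃ j, e ∈ Cl j := fun e he => hcov e (Finset.mem_insert_of_mem he)
    have hins := insert_inter hcl hj E
    have hgj := hg j
    rw [hins j, if_pos rfl] at hgj
    have hgi : ∀ i, i ≠ j → Good (D i) (E ∩ Cl i) := by
      intro i hi
      have := hg i
      rwa [hins i, if_neg hi] at this
    have he' : e ∉ E ∩ Cl j := fun h => he (Finset.mem_inter.mp h).1
    set S := E ∩ Cl j with hS
    have hpos := hgj.pos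
    have hle := le_dl_singleton (D j) e
    -- the class is nonempty after adding the edge
    have htop : topdeg Cl D (insert e E) =
        (∑ i ∈ Finset.univ.erase j, if (E ∩ Cl i).Nonempty then Module.finrank ℚ (D i) - 1 else 0) +
          (Module.finrank ℚ (D j) - 1) := by
      unfold topdeg
      rw [← Finset.sum_erase_add _ _ (Finset.mem_univ j), hins j, if_pos rfl,
        if_pos (Finset.insert_nonempty _ _)]
      congr 1
      refine Finset.sum_congr rfl fun i hi => ?_
      rw [hins i, if_neg (Finset.ne_of_mem_erase hi)]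
    have htop' : topdeg Cl D E =
        (∑ i ∈ Finset.univ.erase j, if (E ∩ Cl i).Nonempty then Module.finrank ℚ (D i) - 1 else 0) +
          (if S.Nonempty then Module.finrank ℚ (D j) - 1 else 0) := by
      unfold topdeg
      rw [← Finset.sum_erase_add _ _ (Finset.mem_univ j)]
    have htop'' : topdeg Cl (Function.update D j (D j ⊓ K {e})) E =
        (∑ i ∈ Finset.univ.erase j, if (E ∩ Cl i).Nonempty then Module.finrank ℚ (D i) - 1 else 0) +
          (if S.Nonempty then dl (D j) {e} - 1 else 0) := by
      unfold topdeg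
      rw [← Finset.sum_erase_add _ _ (Finset.mem_univ j), Function.update_self]
      congr 1
      refine Finset.sum_congr rfl fun i hi => ?_
      rw [Function.update_of_ne (Finset.ne_of_mem_erase hi)]
    set s := ∑ i ∈ Finset.univ.erase j, if (E ∩ Cl i).Nonempty then Module.finrank ℚ (D i) - 1 else 0
    -- generic treatment of the case when the shift vanishes and `Good (D j) S`
    have hshift0 : dl (D j) {e} = 0 → ∀ k, Exact E (shift e (fam Cl D)) k := by
      intro h0 k
      rw [shift_fam hcl D hj]
      refine exact_of_eq_bot fun F _ => fam_bot Cl (j := j) ?_ F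
      rw [Function.update_self]
      exact Submodule.finrank_eq_zero.mp h0
    have hgood : Good (D j) S → ∀ i, Good (D i) (E ∩ Cl i) := by
      intro h i
      by_cases hi : i = j
      · subst hi; exact h
      · exact hgi i hi
    rcases S.eq_empty_or_nonempty with hSe | hSne
    · -- the edge is alone in its class
      have hb := hgj.bot (Finset.insert_nonempty _ _)
      rw [hSe] at hb
      have hb' : dl (D j) {e} = 0 := hb
      have hgS : Good (D j) S := ⟨hpos, fun h => by rw [hSe] at h; simp at h, fun A h1 h2 _ => by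
        rw [hSe, Finset.subset_empty] at h1
        rw [h1] at h2
        simp at h2⟩
      have := ih hcov' D (hgood hgS)
      rw [htop', hSe, if_neg Finset.not_nonempty_empty] at this
      rw [htop]
      have h1 : Module.finrank ℚ (D j) - 1 = 0 := by omega
      rw [h1]
      exact not_exact_insert he (fam_antitone _ _) this (hshift0 hb' _)
    · have hsd : insert e S \ {e} = S := by
        rw [Finset.insert_sdiff_of_mem _ (Finset.mem_singleton_self e)]
        rw [Finset.sdiff_singleton_eq_erase, Finset.erase_eq_of_notMem he']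
      have c1 := hgj.conn {e} (by simp) (by simp) (by rw [hsd]; exact hSne)
      rw [hsd] at c1
      have c3 : dl (D j) S = 0 := by omega
      by_cases hgS : Good (D j) S
      · have h1 := ih hcov' D (hgood hgS)
        rw [htop', if_pos hSne] at h1
        rw [htop]
        refine not_exact_insert he (fam_antitone _ _) h1 ?_
        by_cases h0 : dl (D j) {e} = 0
        · exact hshift0 h0 _
        · rw [shift_fam hcl D hj]
          refine exact_fam_of_lt hcl E hcov' _ _ ?_
          rw [htop'', if_pos hSne]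
          omega
      · have hr : 2 ≤ Module.finrank ℚ (D j) := by
          by_contra hlt
          have hr1 : Module.finrank ℚ (D j) = 1 := by omega
          apply hgS
          refine ⟨hpos, fun _ => c3, ?_⟩
          have hsing : ∀ f ∈ S, dl (D j) {f} = 0 := by
            intro f hf
            have := hgj.conn {f} (by simp [hf]) (by simp) ⟨e, by
              rw [Finset.mem_sdiff]
              refine ⟨Finset.mem_insert_self _ _, fun h => ?_⟩
              rw [Finset.mem_singleton] at h
              exact he' (h ▸ hf)⟩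
            omega
          have hne : ∀ A, A ⊆ S → A.Nonempty → dl (D j) A = 0 := by
            rintro A hA ⟨f, hf⟩
            have h1 := hsing f (hA hf)
            have h2 := dl_antitone (D j) (show {f} ⊆ A by simpa using hf)
            omega
          intro A h1 h2 h3
          rw [hne A h1 h2, hne _ Finset.sdiff_subset h3, hr1]
          omega
        have hgt := tutte he' hSne hgj hr hgS
        obtain ⟨A, hA, nA, nT, hsep⟩ := exists_sep hpos c3 hgS
        have h1 := ih hcov' (Function.update D j (D j ⊓ K {e})) (by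
          intro i
          by_cases hi : i = j
          · subst hi
            rw [Function.update_self]
            exact hgt
          · rw [Function.update_of_ne hi]
            exact hgi i hi)
        rw [htop'', if_pos hSne, ← shift_fam hcl D hj] at h1
        have h2 := exact_fam_of_sep hcl hA nA nT c3 hsep (s + (dl (D j) {e} - 1))
        rw [htop]
        have h3 : s + (Module.finrank ℚ (D j) - 1) = (s + (dl (D j) {e} - 1)) + 1 := by omega
        rw [h3]
        exact not_exact_insert_succ he (fam_antitone _ _) h2 h1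

end Pool.Agent.SpanHom
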