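import Mathlib
import Pool.Agent.SpanHom.Defs
import Pool.Agent.SpanHom.Complex
import Pool.Agent.SpanHom.Bridge
import Pool.Agent.SpanHom.Upper
import Pool.Agent.SpanHom.Tens
import Pool.Agent.SpanHom.Fam

set_option autoImplicit false

namespace Pool.Agent.SpanHom

open Equiv

/-- exactness passes to retracts -/
theorem exact_of_retract {α : Type*} [LinearOrder α] {W W' : Type*} [AddCommGroup W]
    [AddCommGroup W'] {E : Finset α} {A : Finset α → AddSubgroup W} {B : Finset α → AddSubgroup W'}
    {k : ℕ} (f : W →+ W') (g : W' →+ W) (hf : ∀ F, F ⊆ E → ∀ w ∈ A F, f w ∈ B F)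
    (hg : ∀ F, F ⊆ E → ∀ w ∈ B F, g w ∈ A F) (hgf : ∀ F, F ⊆ E → ∀ w ∈ A F, g (f w) = w)
    (hB : Exact E B k) : Exact E A k := by
  intro x hx hbx
  have hfx : IsChn E B k (fun F => f (x F)) := by
    refine ⟨fun F => ?_, fun F hF => ?_⟩
    · by_cases h : x F = 0
      · simp [h]
      · exact hf F (hx.supp F h).1 _ (hx.mem F)
    · apply hx.supp F; intro h; apply hF; simp [h]
  obtain ⟨y, hy, hy'⟩ := hB _ hfx (by rw [bd_map f E x, hbx]; funext F; simp)
  refine ⟨fun F => g (y F), ⟨fun F => ?_, fun F hF => ?_⟩, ?_⟩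
  · by_cases h : y F = 0
    · simp [h]
    · exact hg F (hy.supp F h).1 _ (hy.mem F)
  · apply hy.supp F; intro h; apply hF; simp [h]
  · rw [bd_map g E y, hy']
    funext F
    by_cases h : x F = 0
    · simp [h]
    · exact hgf F (hx.supp F h).1 _ (hx.mem F)

variable {n : ℕ}

/-- rational exactness from integral exactness -/
theorem exact_rat {E : Finset (Pair n)} {k : ℕ} (h : Exact E (invs ℤ) k) : Exact E (invs ℚ) k := by
  intro x hx hbx
  let N : ℕ := ∏ p : Finset (Pair n) × Perm (Fin n), (x p.1 p.2).den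
  have hN : (N : ℚ) ≠ 0 := by
    rw [Nat.cast_ne_zero]
    exact Finset.prod_ne_zero_iff.mpr fun p _ => (x p.1 p.2).den_nz
  have hz : ∀ F g, ∃ z : ℤ, (z : ℚ) = N * x F g := by
    intro F g
    obtain ⟨m, hm⟩ : (x F g).den ∣ N := Finset.dvd_prod_of_mem (fun p : Finset (Pair n) × Perm (Fin n) =>
      (x p.1 p.2).den) (Finset.mem_univ (F, g))
    refine ⟨m * (x F g).num, ?_⟩
    rw [hm]
    push_cast
    have := Rat.den_mul_eq_num (x F g)
    rw [← this]
    ring
  choose z hz using hz
  have hz0 : ∀ F, z F ≠ 0 → x F ≠ 0 := by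
    intro F hzF hxF
    apply hzF
    funext g
    have := hz F g
    rw [hxF] at this
    simp only [Pi.zero_apply, mul_zero, Int.cast_eq_zero] at this
    exact this
  have hzc : IsChn E (invs ℤ) k z := by
    refine ⟨fun F g p hp => ?_, fun F hF => hx.supp F (hz0 F hF)⟩
    have h1 := hz F (g * p)
    rw [hx.mem F g p hp, ← hz F g] at h1
    exact_mod_cast h1
  have hbz : bd E z = 0 := by
    funext F
    funext g
    have h1 : ((bd E z F g : ℤ) : ℚ) = N * bd E x F g := by
      unfold bd
      rw [Finset.sum_apply, Finset.sum_apply, Finset.mul_sum]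
      push_cast
      refine Finset.sum_congr rfl fun e _ => ?_
      simp only [Pi.smul_apply, smul_eq_mul, zsmul_eq_mul]
      push_cast
      rw [hz]
      ring
    rw [hbx] at h1
    simp only [Pi.zero_apply, mul_zero, Int.cast_eq_zero] at h1
    exact h1
  obtain ⟨y, hy, hy'⟩ := h z hzc hbz
  refine ⟨fun F g => (y F g : ℚ) / N, ⟨fun F g p hp => ?_, fun F hF => hy.supp F ?_⟩, ?_⟩
  · show (y F (g * p) : ℚ) / N = (y F g : ℚ) / N
    rw [hy.mem F g p hp]
  · intro h0
    apply hF
    funext g
    simp [h0]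
  · funext F
    funext g
    have h1 : (N : ℚ) * bd E (fun F g => (y F g : ℚ) / N) F g = ((bd E y F g : ℤ) : ℚ) := by
      unfold bd
      rw [Finset.sum_apply, Finset.sum_apply, Finset.mul_sum]
      push_cast
      refine Finset.sum_congr rfl fun e _ => ?_
      simp only [Pi.smul_apply, smul_eq_mul, zsmul_eq_mul]
      push_cast
      field_simp
    rw [hy', hz] at h1
    exact mul_left_cancel₀ hN h1

variable {J : Type*} [Fintype J] [DecidableEq J]

/-- a function of several variables as a function on permutations -/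
def iot (lam : J → Fin n) : T n J →+ (Perm (Fin n) → ℚ) where
  toFun t g := t fun j => g⁻¹ (lam j)
  map_zero' := rfl
  map_add' _ _ := rfl

theorem coordwise {F : Finset (Pair n)} {t : T n J} (ht : ∀ j σ, sec j σ t ∈ K F)
    {σ σ' : J → Fin n} (h : ∀ j, (graphOf F).Reachable (σ j) (σ' j)) : t σ = t σ' := by
  have key : ∀ s : Finset J, t (fun j => if j ∈ s then σ' j else σ j) = t σ := by
    intro s
    induction s using Finset.induction_on with
    | empty => simp
    | insert j s hj ih =>
      rw [← ih]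
      have h1 : (fun i => if i ∈ insert j s then σ' i else σ i) =
          Function.update (fun i => if i ∈ s then σ' i else σ i) j (σ' j) := by
        funext i
        by_cases hi : i = j
        · subst hi; simp
        · rw [Function.update_of_ne hi]
          simp [hi]
      have h2 : (fun i => if i ∈ s then σ' i else σ i) =
          Function.update (fun i => if i ∈ s then σ' i else σ i) j (σ j) := by
        funext i
        by_cases hi : i = j
        · subst hi; simp [hj]
        · rw [Function.update_of_ne hi]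
      rw [h1]
      conv_rhs => rw [h2]
      exact (const_of_reachable (ht j (fun i => if i ∈ s then σ' i else σ i)) (h j)).symm
  have := key Finset.univ
  simpa using this.symm

theorem iot_mem {F : Finset (Pair n)} {t : T n J} (ht : ∀ j σ, sec j σ t ∈ K F)
    (lam : J → Fin n) : iot lam t ∈ invs ℚ F := by
  intro g h hh
  show t (fun j => (g * h)⁻¹ (lam j)) = t (fun j => g⁻¹ (lam j))
  refine (coordwise ht fun j => ?_).symm
  rw [mul_inv_rev, Perm.mul_apply]
  exact (young F).inv_mem hh _

/-- sums over the permutations taking `σ` to `lam` -/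
def mm (lam : J → Fin n) : (Perm (Fin n) → ℚ) →+ T n J where
  toFun φ σ := ∑ g : Perm (Fin n), if ∀ j, g (σ j) = lam j then φ g else 0
  map_zero' := by
    funext σ
    simp
  map_add' a b := by
    funext σ
    simp only [Pi.add_apply]
    rw [← Finset.sum_add_distrib]
    refine Finset.sum_congr rfl fun g _ => ?_
    split_ifs <;> simp

/-- antisymmetrization -/
def alt : T n J →+ T n J where
  toFun t σ := ∑ τ : Perm J, (Perm.sign τ : ℤ) • t (σ ∘ τ)
  map_zero' := by
    funext σ
    simp
  map_add' a b := by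
    funext σ
    simp only [Pi.add_apply, smul_add]
    rw [← Finset.sum_add_distrib]

theorem alt_comp (t : T n J) (σ : J → Fin n) (ρ : Perm J) :
    alt t (σ ∘ ρ) = (Perm.sign ρ : ℤ) • alt t σ := by
  show ∑ τ : Perm J, (Perm.sign τ : ℤ) • t ((σ ∘ ρ) ∘ τ) =
    (Perm.sign ρ : ℤ) • ∑ τ : Perm J, (Perm.sign τ : ℤ) • t (σ ∘ τ)
  rw [Finset.smul_sum]
  refine Fintype.sum_equiv (Equiv.mulLeft ρ) _ _ fun τ => ?_
  simp only [Equiv.coe_mulLeft, Perm.sign_mul, Units.val_mul, Perm.coe_mul, smul_smul,
    Function.comp_assoc]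
  congr 1
  rw [← mul_assoc, ← Units.val_mul, Int.units_mul_self, Units.val_one, one_mul]

theorem alt_of_not_injective (t : T n J) (σ : J → Fin n) (h : ¬ Function.Injective σ) :
    alt t σ = 0 := by
  unfold Function.Injective at h
  push Not at h
  obtain ⟨i, j, hij, hne⟩ := h
  have h1 := alt_comp t σ (Equiv.swap i j)
  have h2 : σ ∘ (Equiv.swap i j) = σ := by
    funext x
    simp only [Function.comp_apply]
    by_cases hx : x = i
    · subst hx; rw [Equiv.swap_apply_left, hij]
    · by_cases hx' : x = j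
      · subst hx'; rw [Equiv.swap_apply_right, hij]
      · rw [Equiv.swap_apply_of_ne_of_ne hx hx']
  rw [h2, Perm.sign_swap hne] at h1
  simp only [Units.val_neg, Units.val_one, neg_smul, one_smul] at h1
  linarith

theorem mm_swap {F : Finset (Pair n)} {φ : Perm (Fin n) → ℚ} (hφ : φ ∈ invs ℚ F)
    (lam : J → Fin n) {h : Perm (Fin n)} (hh : h ∈ young F) (σ : J → Fin n) :
    mm lam φ (h ∘ σ) = mm lam φ σ := by
  show (∑ g : Perm (Fin n), if ∀ j, g ((h ∘ σ) j) = lam j then φ g else 0) =
    ∑ g : Perm (Fin n), if ∀ j, g (σ j) = lam j then φ g else 0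
  refine Fintype.sum_equiv (Equiv.mulRight h) _ _ fun g => ?_
  rw [Equiv.coe_mulRight]
  by_cases hg : ∀ j, g ((h ∘ σ) j) = lam j
  · rw [if_pos hg, if_pos, hφ g h hh]
    intro j
    exact hg j
  · rw [if_neg hg, if_neg]
    intro hc
    exact hg fun j => hc j

theorem mm_swap' {F : Finset (Pair n)} {φ : Perm (Fin n) → ℚ} (hφ : φ ∈ invs ℚ F)
    (lam : J → Fin n) {h : Perm (Fin n)} (hh : h ∈ young F) (σ : J → Fin n) :
    alt (mm lam φ) (h ∘ σ) = alt (mm lam φ) σ := by
  show ∑ τ : Perm J, (Perm.sign τ : ℤ) • mm lam φ ((h ∘ σ) ∘ τ) =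
    ∑ τ : Perm J, (Perm.sign τ : ℤ) • mm lam φ (σ ∘ τ)
  refine Finset.sum_congr rfl fun τ _ => ?_
  rw [Function.comp_assoc, mm_swap hφ lam hh]

theorem swap_mem_young {F : Finset (Pair n)} {e : Pair n} (he : e ∈ F) :
    Equiv.swap (ofLex e).1 (ofLex e).2 ∈ young F := by
  intro x
  by_cases hne : (ofLex e).1 = (ofLex e).2
  · rw [hne, Equiv.swap_self]; exact SimpleGraph.Reachable.refl _
  have hadj : (graphOf F).Adj (ofLex e).1 (ofLex e).2 := by
    simp only [graphOf, SimpleGraph.fromRel_adj]; exact ⟨hne, Or.inl he⟩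
  by_cases h1 : x = (ofLex e).1
  · subst h1; rw [Equiv.swap_apply_left]; exact hadj.reachable
  · by_cases h2 : x = (ofLex e).2
    · subst h2; rw [Equiv.swap_apply_right]; exact hadj.symm.reachable
    · rw [Equiv.swap_apply_of_ne_of_ne h1 h2]

/-- the antisymmetrized sums are coordinatewise constant -/
theorem sec_alt_mm {F : Finset (Pair n)} {φ : Perm (Fin n) → ℚ} (hφ : φ ∈ invs ℚ F)
    (lam : J → Fin n) (j : J) (σ : J → Fin n) : sec j σ (alt (mm lam φ)) ∈ K F := by
  intro e he
  set a := (ofLex e).1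
  set b := (ofLex e).2
  have hh := swap_mem_young he
  by_cases hab : a = b
  · rw [hab]
  set u := alt (mm lam φ) with hu
  show u (Function.update σ j a) = u (Function.update σ j b)
  -- a conflict in another coordinate
  have key : ∀ {a b : Fin n}, a ≠ b → (∀ σ : J → Fin n, u (Equiv.swap a b ∘ σ) = u σ) → ∀ i, i ≠ j →
      σ i = b → u (Function.update σ j a) = 0 ∧ u (Function.update σ j b) = 0 := by
    intro a b hab hsw i hi hσ
    constructor
    · by_cases hinj : Function.Injective (Function.update σ j a)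
      · have h1 := hsw (Function.update σ j a)
        have h2 : Equiv.swap a b ∘ Function.update σ j a = Function.update σ j a ∘ Equiv.swap i j := by
          have hj' : Function.update σ j a j = a := Function.update_self _ _ _
          have hi' : Function.update σ j a i = b := by rw [Function.update_of_ne hi, hσ]
          funext x
          simp only [Function.comp_apply]
          by_cases hxj : x = j
          · subst hxj
            rw [hj', Equiv.swap_apply_left, Equiv.swap_apply_right, hi']
          · by_cases hxi : x = i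
            · subst hxi
              rw [hi', Equiv.swap_apply_right, Equiv.swap_apply_left, hj']
            · rw [Equiv.swap_apply_of_ne_of_ne hxi hxj, Equiv.swap_apply_of_ne_of_ne]
              · intro h3; exact hxj (hinj (h3.trans hj'.symm))
              · intro h3; exact hxi (hinj (h3.trans hi'.symm))
        rw [h2, hu, alt_comp, Perm.sign_swap hi] at h1
        simp only [Units.val_neg, Units.val_one, neg_smul, one_smul] at h1
        rw [hu]
        linarith
      · rw [hu]; exact alt_of_not_injective _ _ hinj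
    · rw [hu]
      refine alt_of_not_injective _ _ fun hinj => hi (hinj (a₁ := i) (a₂ := j) ?_)
      rw [Function.update_of_ne hi, Function.update_self, hσ]
  by_cases hc1 : ∃ i, i ≠ j ∧ σ i = b
  · obtain ⟨i, hi, hσ⟩ := hc1
    obtain ⟨h1, h2⟩ := key hab (fun σ => mm_swap' hφ lam hh σ) i hi hσ
    rw [h1, h2]
  · by_cases hc2 : ∃ i, i ≠ j ∧ σ i = a
    · obtain ⟨i, hi, hσ⟩ := hc2
      obtain ⟨h1, h2⟩ := key (Ne.symm hab)
        (fun σ => by rw [Equiv.swap_comm]; exact mm_swap' hφ lam hh σ) i hi hσ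
      rw [h1, h2]
    · push Not at hc1 hc2
      have h1 := mm_swap' hφ lam hh (Function.update σ j a)
      rw [← hu] at h1
      rw [← h1]
      congr 1
      funext x
      simp only [Function.comp_apply]
      by_cases hx : x = j
      · subst hx; rw [Function.update_self, Function.update_self]; exact Equiv.swap_apply_left _ _
      · rw [Function.update_of_ne hx, Function.update_of_ne hx]
        exact Equiv.swap_apply_of_ne_of_ne (hc2 x hx) (hc1 x hx)

/-- the number of permutations taking `σ` to `lam` -/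
def cnt (lam σ : J → Fin n) : ℕ :=
  (Finset.univ.filter fun g : Perm (Fin n) => ∀ j, g (σ j) = lam j).card

theorem mm_iot (lam : J → Fin n) (t : T n J) (σ : J → Fin n) :
    mm lam (iot lam t) σ = cnt lam σ * t σ := by
  show (∑ g : Perm (Fin n), if ∀ j, g (σ j) = lam j then t (fun j => g⁻¹ (lam j)) else 0) = _
  rw [← Finset.sum_filter, cnt]
  rw [← nsmul_eq_mul, ← Finset.sum_const]
  refine Finset.sum_congr rfl fun g hg => ?_
  rw [Finset.mem_filter] at hg
  congr 1
  funext j
  rw [← hg.2 j]
  simp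

theorem exists_perm {lam σ : J → Fin n} (hl : Function.Injective lam) (hσ : Function.Injective σ) :
    ∃ p : Perm (Fin n), ∀ j, p (lam j) = σ j := by
  classical
  let e : {x // x ∈ Set.range lam} ≃ {x // x ∈ Set.range σ} :=
    (Equiv.ofInjective lam hl).symm.trans (Equiv.ofInjective σ hσ)
  refine ⟨e.extendSubtype, fun j => ?_⟩
  rw [Equiv.extendSubtype_apply_of_mem e (lam j) ⟨j, rfl⟩]
  simp [e]

theorem cnt_eq {lam σ : J → Fin n} (hl : Function.Injective lam) (hσ : Function.Injective σ) :
    cnt lam σ = cnt lam lam := by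
  obtain ⟨p, hp⟩ := exists_perm hl hσ
  unfold cnt
  refine Finset.card_equiv (Equiv.mulRight p) fun g => ?_
  simp only [Finset.mem_filter, Finset.mem_univ, true_and, Equiv.coe_mulRight, Perm.mul_apply]
  simp [hp]

theorem cnt_self_pos (lam : J → Fin n) : 0 < cnt lam lam := by
  unfold cnt
  rw [Finset.card_pos]
  exact ⟨1, by simp⟩

theorem alt_mm_iot {lam : J → Fin n} (hl : Function.Injective lam) (t : T n J) :
    alt (mm lam (iot lam t)) = (cnt lam lam : ℚ) • alt t := by
  funext σ
  by_cases hσ : Function.Injective σ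
  · show ∑ τ : Perm J, (Perm.sign τ : ℤ) • mm lam (iot lam t) (σ ∘ τ) =
      (cnt lam lam : ℚ) • ∑ τ : Perm J, (Perm.sign τ : ℤ) • t (σ ∘ τ)
    rw [Finset.smul_sum]
    refine Finset.sum_congr rfl fun τ _ => ?_
    rw [mm_iot, cnt_eq hl (hσ.comp τ.injective), smul_comm, smul_eq_mul]
  · rw [alt_of_not_injective _ _ hσ]
    show 0 = (cnt lam lam : ℚ) • alt t σ
    rw [alt_of_not_injective _ _ hσ, smul_zero]

/-- the composite of all the coordinate operators -/
theorem exists_prod (p : J → (Fin n → ℚ) →ₗ[ℚ] (Fin n → ℚ)) (s : Finset J) :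
    ∃ P : T n J →+ T n J,
      (∀ j, j ∉ s → ∀ (U : Submodule ℚ (Fin n → ℚ)) (t : T n J), (∀ σ, sec j σ t ∈ U) →
        ∀ σ, sec j σ (P t) ∈ U) ∧
      (∀ j ∈ s, ∀ t : T n J, (∀ σ, p j (sec j σ t) = 0) → P t = 0) ∧
      (∀ t : T n J, (∀ j ∈ s, ∀ σ, p j (sec j σ t) = sec j σ t) → P t = t) ∧
      (∀ j ∈ s, ∀ (U U' : Submodule ℚ (Fin n → ℚ)), (∀ v ∈ U, p j v ∈ U') → ∀ t : T n J,
        (∀ σ, sec j σ t ∈ U) → ∀ σ, sec j σ (P t) ∈ U') := by
  induction s using Finset.induction_on with
  | empty =>
    refine ⟨AddMonoidHom.id _, fun j _ U t h σ => h σ, ?_, fun t _ => rfl, ?_⟩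
    · intro j hj; simp at hj
    · intro j hj; simp at hj
  | insert j s hj ih =>
    obtain ⟨P, P1, P2, P3, P4⟩ := ih
    refine ⟨(app j (p j)).comp P, ?_, ?_, ?_, ?_⟩
    · intro i hi U t ht σ
      rw [Finset.mem_insert, not_or] at hi
      show sec i σ (app j (p j) (P t)) ∈ U
      rw [sec_app_ne hi.1]
      exact U.sum_mem fun y _ => U.smul_mem _ (P1 i hi.2 U t ht _)
    · intro i hi t ht
      show app j (p j) (P t) = 0
      rw [Finset.mem_insert] at hi
      rcases hi with rfl | hi
      · funext σ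
        have h1 := P1 i hj (LinearMap.ker (p i)) t (fun σ => by
          rw [LinearMap.mem_ker]; exact ht σ) σ
        rw [LinearMap.mem_ker] at h1
        show p i (sec i σ (P t)) (σ i) = 0
        rw [h1]
        rfl
      · rw [P2 i hi t ht, map_zero]
    · intro t ht
      show app j (p j) (P t) = t
      rw [P3 t fun i hi => ht i (Finset.mem_insert_of_mem hi)]
      funext σ
      show p j (sec j σ t) (σ j) = t σ
      rw [ht j (Finset.mem_insert_self _ _), sec_apply_self]
    · intro i hi U U' hU t ht σ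
      show sec i σ (app j (p j) (P t)) ∈ U'
      by_cases hij : i = j
      · subst hij
        rw [sec_app_self]
        exact hU _ (P1 i hj U t ht σ)
      · rw [sec_app_ne hij]
        have hi' : i ∈ s := by
          rw [Finset.mem_insert] at hi
          exact hi.resolve_left hij
        exact U'.sum_mem fun y _ => U'.smul_mem _ (P4 i hi' U U' hU t ht _)

theorem sec_comp (j : J) (σ : J → Fin n) (t : T n J) (τ : Perm J) :
    sec j σ (fun σ => t (σ ∘ τ)) = sec (τ⁻¹ j) (σ ∘ τ) t := by
  funext x
  show t (Function.update σ j x ∘ τ) = t (Function.update (σ ∘ τ) (τ⁻¹ j) x)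
  congr 1
  funext i
  by_cases hi : i = τ⁻¹ j
  · subst hi
    simp
  · rw [Function.update_of_ne hi]
    simp only [Function.comp_apply]
    rw [Function.update_of_ne]
    intro h
    apply hi
    rw [← h]
    simp

/-- the retraction -/
theorem exact_fam_of_exact_invs {Cl : J → Finset (Pair n)} {E : Finset (Pair n)}
    {L : J → Submodule ℚ (Fin n → ℚ)} (hL : ∀ j, L j ≤ K (E \ Cl j))
    (p : J → (Fin n → ℚ) →ₗ[ℚ] (Fin n → ℚ)) (hp1 : ∀ j, ∀ v ∈ L j, p j v = v)
    (hp2 : ∀ i j, i ≠ j → ∀ v ∈ L i, p j v = 0)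
    (hp3 : ∀ j, ∀ F, F ⊆ E → ∀ v ∈ K F, p j v ∈ L j ⊓ K F)
    {lam : J → Fin n} (hl : Function.Injective lam) {k : ℕ} (h : Exact E (invs ℚ) k) :
    Exact E (fam Cl L) k := by
  obtain ⟨P, -, P2, P3, P4⟩ := exists_prod p Finset.univ
  have hN : (cnt lam lam : ℚ) ≠ 0 := by
    rw [Nat.cast_ne_zero]
    exact (cnt_self_pos lam).ne'
  let g : (Perm (Fin n) → ℚ) →+ T n J :=
    ((DistribSMul.toAddMonoidHom (T n J) ((cnt lam lam : ℚ)⁻¹)).comp P).comp (alt.comp (mm lam))
  have hg : ∀ φ, g φ = (cnt lam lam : ℚ)⁻¹ • P (alt (mm lam φ)) := fun φ => rfl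
  refine exact_of_retract (iot lam) g ?_ ?_ ?_ h
  · intro F hF t ht
    refine iot_mem (fun j σ => ?_) lam
    intro e he
    by_cases hej : e ∈ Cl j
    · exact (ht j σ).2 e (Finset.mem_inter.mpr ⟨he, hej⟩)
    · exact hL j (ht j σ).1 e (Finset.mem_sdiff.mpr ⟨hF he, hej⟩)
  · intro F hF φ hφ j σ
    rw [hg]
    refine Submodule.smul_mem _ _ ?_
    refine P4 j (Finset.mem_univ _) (K F) _ (fun v hv => ?_) _ (fun σ => sec_alt_mm hφ lam j σ) σ
    exact ⟨(hp3 j F hF v hv).1, K_antitone Finset.inter_subset_left (hp3 j F hF v hv).2⟩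
  · intro F hF t ht
    rw [hg, alt_mm_iot hl]
    have ht' : ∀ j σ, sec j σ t ∈ L j := fun j σ => (ht j σ).1
    have h1 : (cnt lam lam : ℚ) • alt t = ∑ τ : Perm J,
        ((cnt lam lam : ℤ) * (Perm.sign τ : ℤ)) • (fun σ : J → Fin n => t (σ ∘ τ)) := by
      funext σ
      rw [Finset.sum_apply]
      show (cnt lam lam : ℚ) • ∑ τ : Perm J, (Perm.sign τ : ℤ) • t (σ ∘ τ) = _
      rw [Finset.smul_sum]
      refine Finset.sum_congr rfl fun τ _ => ?_
      simp only [Pi.smul_apply, smul_eq_mul, zsmul_eq_mul]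
      push_cast
      ring
    rw [h1, map_sum, Finset.sum_eq_single (1 : Perm J)]
    · rw [map_zsmul]
      have h2 : (fun σ : J → Fin n => t (σ ∘ (1 : Perm J))) = t := rfl
      rw [h2, P3 t fun j _ σ => hp1 j _ (ht' j σ), Perm.sign_one, Units.val_one, mul_one]
      funext σ
      simp only [Pi.smul_apply, smul_eq_mul, zsmul_eq_mul]
      push_cast
      field_simp
      rfl
    · intro τ _ hτ
      rw [map_zsmul]
      obtain ⟨j, hj⟩ : ∃ j, τ⁻¹ j ≠ j := by
        by_contra hcon
        push Not at hcon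
        apply hτ
        ext j
        have := hcon j
        rw [Perm.inv_eq_iff_eq] at this
        simpa using this.symm
      rw [P2 j (Finset.mem_univ _), smul_zero]
      intro σ
      rw [sec_comp]
      exact hp2 _ _ hj _ (ht' _ _)
    · intro h2
      exact absurd (Finset.mem_univ _) h2

end Pool.Agent.SpanHom
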