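import Mathlib
import Pool.Agent.SpanHom.Defs
import Pool.Agent.SpanHom.Complex
import Pool.Agent.SpanHom.Bridge
import Pool.Agent.SpanHom.Upper
import Pool.Agent.SpanHom.Tens
import Pool.Agent.SpanHom.Fam
import Pool.Agent.SpanHom.Retract

set_option autoImplicit false

namespace Pool.Agent.SpanHom

open Equiv

variable {n : ℕ}

theorem mem_edges {G : SimpleGraph (Fin n)} {e : Pair n} :
    e ∈ edges G ↔ (ofLex e).1 < (ofLex e).2 ∧ G.Adj (ofLex e).1 (ofLex e).2 := by
  simp [edges]

theorem graphOf_edges (G : SimpleGraph (Fin n)) : graphOf (edges G) = G := by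
  ext i j
  simp only [graphOf, SimpleGraph.fromRel_adj, mem_edges, ofLex_toLex]
  constructor
  · rintro ⟨_, h | h⟩
    · exact h.2
    · exact h.2.symm
  · intro h
    refine ⟨h.ne, ?_⟩
    rcases lt_or_gt_of_ne h.ne with h1 | h1
    · exact Or.inl ⟨h1, h⟩
    · exact Or.inr ⟨h1, h.symm⟩

/-- restriction to the roots of the components -/
noncomputable def restr (G : SimpleGraph (Fin n)) :
    (Fin n → ℚ) →ₗ[ℚ] (G.ConnectedComponent → ℚ) where
  toFun a c := a (Quot.out c)
  map_add' _ _ := rfl
  map_smul' _ _ := rfl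

/-- functions vanishing at the roots -/
noncomputable def V0 (G : SimpleGraph (Fin n)) : Submodule ℚ (Fin n → ℚ) := (restr G).ker

theorem mem_V0 {G : SimpleGraph (Fin n)} {a : Fin n → ℚ} :
    a ∈ V0 G ↔ ∀ c : G.ConnectedComponent, a (Quot.out c) = 0 := by
  unfold V0
  rw [LinearMap.mem_ker]
  exact ⟨fun h c => congrFun h c, fun h => funext h⟩

theorem out_mk (G : SimpleGraph (Fin n)) (c : G.ConnectedComponent) :
    G.connectedComponentMk (Quot.out c) = c := Quot.out_eq c

theorem finrank_V0 (G : SimpleGraph (Fin n)) :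
    Module.finrank ℚ (V0 G) + numComponents G = n := by
  classical
  haveI : Fintype G.ConnectedComponent := Fintype.ofFinite _
  have hsurj : Function.Surjective (restr G) := by
    intro b
    refine ⟨fun x => b (G.connectedComponentMk x), ?_⟩
    funext c
    show b (G.connectedComponentMk (Quot.out c)) = b c
    rw [out_mk]
  have h := LinearMap.finrank_range_add_finrank_ker (restr G)
  rw [LinearMap.range_eq_top.mpr hsurj, finrank_top, Module.finrank_fin_fun,
    Module.finrank_fintype_fun_eq_card] at h
  unfold numComponents V0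
  rw [Nat.card_eq_fintype_card]
  omega

/-- a function in `V0` constant along all edges vanishes -/
theorem V0_inf_K (G : SimpleGraph (Fin n)) : V0 G ⊓ K (edges G) = ⊥ := by
  rw [eq_bot_iff]
  rintro a ⟨h1, h2⟩
  rw [Submodule.mem_bot]
  funext x
  have h3 : (graphOf (edges G)).Reachable x (Quot.out (G.connectedComponentMk x)) := by
    rw [graphOf_edges]
    apply SimpleGraph.ConnectedComponent.eq.mp
    rw [out_mk]
  rw [const_of_reachable h2 h3]
  exact mem_V0.mp h1 _

/-- the pieces of a decomposition -/
noncomputable def piece (G : SimpleGraph (Fin n)) (A : Finset (Pair n)) :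
    Submodule ℚ (Fin n → ℚ) := V0 G ⊓ K (edges G \ A)

/-- `Cl` is a decomposition of the edge set -/
structure IsDec (G : SimpleGraph (Fin n)) {c : ℕ} (Cl : Fin c → Finset (Pair n)) : Prop where
  disj : ∀ i j, i ≠ j → Disjoint (Cl i) (Cl j)
  sub : ∀ i, Cl i ⊆ edges G
  cov : ∀ e ∈ edges G, ∃ i, e ∈ Cl i
  ne : ∀ i, (Cl i).Nonempty
  dec : ∀ v ∈ V0 G, ∃ w : Fin c → (Fin n → ℚ), (∀ i, w i ∈ piece G (Cl i)) ∧ ∑ i, w i = v

theorem isDec_one {G : SimpleGraph (Fin n)} (h : (edges G).Nonempty) :
    IsDec G (fun _ : Fin 1 => edges G) where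
  disj := fun i j hij => absurd (Subsingleton.elim i j) hij
  sub := fun _ => subset_rfl
  cov := fun e he => ⟨0, he⟩
  ne := fun _ => h
  dec := fun v hv => ⟨fun _ => v, fun _ => by
    unfold piece
    rw [Finset.sdiff_self, K_empty, inf_top_eq]; exact hv, by simp⟩

namespace IsDec

variable {G : SimpleGraph (Fin n)} {c : ℕ} {Cl : Fin c → Finset (Pair n)}

theorem le_card (h : IsDec G Cl) : c ≤ (edges G).card := by
  choose e he using h.ne
  have hinj : Function.Injective e := by
    intro i j hij
    by_contra hne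
    exact Finset.disjoint_left.mp (h.disj i j hne) (he i) (hij ▸ he j)
  calc c = (Finset.univ.image e).card := by
        rw [Finset.card_image_of_injective _ hinj, Finset.card_univ, Fintype.card_fin]
    _ ≤ _ := Finset.card_le_card fun x hx => by
        rw [Finset.mem_image] at hx
        obtain ⟨i, _, rfl⟩ := hx
        exact h.sub i (he i)

theorem piece_le (h : IsDec G Cl) {i j : Fin c} (hij : i ≠ j) : piece G (Cl i) ≤ K (Cl j) :=
  inf_le_right.trans (K_antitone fun _ he => Finset.mem_sdiff.mpr ⟨h.sub j he, fun he' =>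
    Finset.disjoint_left.mp (h.disj i j hij) he' he⟩)

theorem piece_inf_K (_ : IsDec G Cl) (i : Fin c) : piece G (Cl i) ⊓ K (Cl i) = ⊥ := by
  rw [eq_bot_iff, ← V0_inf_K G]
  rintro a ⟨⟨h1, h2⟩, h3⟩
  refine ⟨h1, fun e he => ?_⟩
  by_cases hi : e ∈ Cl i
  · exact h3 e hi
  · exact h2 e (Finset.mem_sdiff.mpr ⟨he, hi⟩)

theorem disjoint_rest (h : IsDec G Cl) (j : Fin c) :
    piece G (Cl j) ⊓ (⨆ i, ⨆ (_ : i ≠ j), piece G (Cl i)) = ⊥ := by
  rw [eq_bot_iff, ← h.piece_inf_K j]
  exact inf_le_inf_left _ (iSup_le fun i => iSup_le fun hi => h.piece_le hi)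

theorem indep (h : IsDec G Cl) : iSupIndep fun i => piece G (Cl i) := by
  rw [iSupIndep_def]
  intro j
  rw [disjoint_iff]
  exact h.disjoint_rest j

theorem piece_ne_bot (h : IsDec G Cl) (j : Fin c) : piece G (Cl j) ≠ ⊥ := by
  classical
  intro hb
  obtain ⟨e, he⟩ := h.ne j
  have hK : V0 G ≤ K {e} := by
    intro v hv
    obtain ⟨w, hw, rfl⟩ := h.dec v hv
    refine Submodule.sum_mem _ fun i _ => ?_
    by_cases hi : i = j
    · subst hi
      have := hw i
      rw [hb, Submodule.mem_bot] at this
      rw [this]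
      exact Submodule.zero_mem _
    · exact K_antitone (by simpa using he) (h.piece_le hi (hw i))
  have hadj := (mem_edges.mp (h.sub j he)).2
  have hlt := (mem_edges.mp (h.sub j he)).1
  have key : ∀ x : Fin n, x ≠ Quot.out (G.connectedComponentMk x) → (Pi.single x 1 : Fin n → ℚ) ∈ V0 G := by
    intro x hx
    rw [mem_V0]
    intro c
    rw [Pi.single_apply, if_neg]
    intro hc
    apply hx
    rw [← hc, out_mk]
  have hne : (ofLex e).1 ≠ (ofLex e).2 := hlt.ne
  by_cases hx : (ofLex e).1 = Quot.out (G.connectedComponentMk (ofLex e).1)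
  · have hy : (ofLex e).2 ≠ Quot.out (G.connectedComponentMk (ofLex e).2) := by
      intro hy
      apply hne
      rw [hx, hy]
      congr 1
      exact SimpleGraph.ConnectedComponent.eq.mpr hadj.reachable
    have := hK (key _ hy) e (by simp)
    rw [Pi.single_eq_same, Pi.single_eq_of_ne hne] at this
    exact zero_ne_one this
  · have := hK (key _ hx) e (by simp)
    rw [Pi.single_eq_same, Pi.single_eq_of_ne hne.symm] at this
    exact one_ne_zero this

theorem le_n (h : IsDec G Cl) : c ≤ n := by
  classical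
  have h1 := h.indep.subtype_ne_bot_le_finrank
  rw [Module.finrank_fin_fun, Fintype.card_subtype] at h1
  rw [Finset.filter_true_of_mem fun i _ => h.piece_ne_bot i, Finset.card_univ,
    Fintype.card_fin] at h1
  exact h1

theorem finrank_le (h : IsDec G Cl) :
    Module.finrank ℚ (V0 G) ≤ ∑ i, Module.finrank ℚ (piece G (Cl i)) := by
  let f : ((i : Fin c) → piece G (Cl i)) →ₗ[ℚ] (Fin n → ℚ) :=
    { toFun := fun w => ∑ i, (w i : Fin n → ℚ)
      map_add' := fun a b => by simp [Finset.sum_add_distrib]
      map_smul' := fun a b => by simp [Finset.smul_sum] }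
  have h1 : V0 G ≤ f.range := by
    intro v hv
    obtain ⟨w, hw, hs⟩ := h.dec v hv
    exact ⟨fun i => ⟨w i, hw i⟩, hs⟩
  have h2 := Submodule.finrank_mono h1
  have h3 := LinearMap.finrank_range_le f
  rw [Module.finrank_pi_fintype] at h3
  omega

end IsDec

/-- the projections associated with a decomposition -/
theorem IsDec.exists_projs {G : SimpleGraph (Fin n)} {c : ℕ} {Cl : Fin c → Finset (Pair n)}
    (h : IsDec G Cl) : ∃ p : Fin c → (Fin n → ℚ) →ₗ[ℚ] (Fin n → ℚ),
      (∀ j, ∀ v ∈ piece G (Cl j), p j v = v) ∧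
      (∀ i j, i ≠ j → ∀ v ∈ piece G (Cl i), p j v = 0) ∧
      (∀ j, ∀ F, F ⊆ edges G → ∀ v ∈ K F, p j v ∈ piece G (Cl j) ⊓ K F) := by
  classical
  have hq := fun j => exists_proj (h.disjoint_rest j)
  choose q hq1 hq2 using hq
  let nrm : (Fin n → ℚ) →ₗ[ℚ] (Fin n → ℚ) :=
    { toFun := fun a x => a x - a (Quot.out (G.connectedComponentMk x))
      map_add' := fun a b => by funext x; simp only [Pi.add_apply]; ring
      map_smul' := fun a b => by
        funext x; simp only [Pi.smul_apply, smul_eq_mul, RingHom.id_apply]; ring }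
  have hn1 : ∀ v, nrm v ∈ V0 G := by
    intro v
    rw [mem_V0]
    intro c
    show v (Quot.out c) - v (Quot.out (G.connectedComponentMk (Quot.out c))) = 0
    rw [out_mk, sub_self]
  have hn2 : ∀ v ∈ V0 G, nrm v = v := by
    intro v hv
    funext x
    show v x - v (Quot.out (G.connectedComponentMk x)) = v x
    rw [mem_V0.mp hv, sub_zero]
  have hn3 : ∀ F, F ⊆ edges G → ∀ v ∈ K F, nrm v ∈ K F := by
    intro F hF v hv e he
    show v _ - v _ = v _ - v _
    rw [hv e he]
    have : G.connectedComponentMk (ofLex e).1 = G.connectedComponentMk (ofLex e).2 :=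
      SimpleGraph.ConnectedComponent.eq.mpr (mem_edges.mp (hF he)).2.reachable
    rw [this]
  have hrest : ∀ i j, i ≠ j → ∀ v ∈ piece G (Cl i), q j v = 0 := by
    intro i j hij v hv
    exact hq2 j v (le_iSup₂_of_le (f := fun i (_ : i ≠ j) => piece G (Cl i)) i hij le_rfl hv)
  refine ⟨fun j => (q j).comp nrm, ?_, ?_, ?_⟩
  · intro j v hv
    rw [LinearMap.comp_apply, hn2 v hv.1, hq1 j v hv]
  · intro i j hij v hv
    rw [LinearMap.comp_apply, hn2 v hv.1, hrest i j hij v hv]
  · intro j F hF v hv
    rw [LinearMap.comp_apply]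
    obtain ⟨w, hw, hs⟩ := h.dec _ (hn1 v)
    have h1 : q j (nrm v) = w j := by
      rw [← hs, map_sum, Finset.sum_eq_single j]
      · exact hq1 j _ (hw j)
      · intro i _ hi
        exact hrest i j hi _ (hw i)
      · intro h2; exact absurd (Finset.mem_univ _) h2
    rw [h1]
    refine ⟨hw j, fun e he => ?_⟩
    by_cases hej : e ∈ Cl j
    · have h2 : w j = nrm v - ∑ i ∈ Finset.univ.erase j, w i := by
        rw [← hs, ← Finset.add_sum_erase _ _ (Finset.mem_univ j), add_sub_cancel_right]
      have h3 : ∑ i ∈ Finset.univ.erase j, w i ∈ K (Cl j) :=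
        Submodule.sum_mem _ fun i hi => h.piece_le (Finset.ne_of_mem_erase hi) (hw i)
      have h4 := h3 e hej
      have h5 := hn3 F hF v hv e he
      rw [h2]
      simp only [Pi.sub_apply]
      rw [h4, h5]
    · exact (hw j).2 e (Finset.mem_sdiff.mpr ⟨hF he, hej⟩)

/-- refinement of a decomposition -/
theorem IsDec.refine_sep {G : SimpleGraph (Fin n)} {c : ℕ} {Cl : Fin c → Finset (Pair n)}
    (h : IsDec G Cl) {j : Fin c} {A : Finset (Pair n)} (hA : A ⊆ Cl j) (nA : A.Nonempty)
    (nB : (Cl j \ A).Nonempty)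
    (hsep : ∀ v ∈ piece G (Cl j), ∃ a ∈ piece G (Cl j) ⊓ K A, ∃ b ∈ piece G (Cl j) ⊓ K (Cl j \ A),
      a + b = v) :
    IsDec G (Fin.cons (Cl j \ A) (Function.update Cl j A) : Fin (c + 1) → Finset (Pair n)) where
  disj := by
    have h1 : ∀ i, Disjoint (Cl j \ A) (Function.update Cl j A i) := by
      intro i
      by_cases hi : i = j
      · subst hi; rw [Function.update_self]; exact Finset.sdiff_disjoint
      · rw [Function.update_of_ne hi]
        exact (h.disj j i (Ne.symm hi)).mono_left Finset.sdiff_subset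
    have h2 : ∀ i i', i ≠ i' → Disjoint (Function.update Cl j A i) (Function.update Cl j A i') := by
      intro i i' hii
      by_cases hi : i = j
      · subst hi
        rw [Function.update_self, Function.update_of_ne (Ne.symm hii)]
        exact (h.disj i i' hii).mono_left hA
      · by_cases hi' : i' = j
        · subst hi'
          rw [Function.update_self, Function.update_of_ne hi]
          exact (h.disj i i' hii).mono_right hA
        · rw [Function.update_of_ne hi, Function.update_of_ne hi']
          exact h.disj i i' hii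
    intro i i' hii
    refine Fin.cases ?_ (fun i => ?_) i (motive := fun i => i ≠ i' → Disjoint _ _) hii <;>
      clear hii <;> refine Fin.cases ?_ (fun i' => ?_) i'
    · intro h3; exact absurd rfl h3
    · intro _; exact h1 i'
    · intro _; exact (h1 i).symm
    · intro h3; exact h2 i i' fun h4 => h3 (by rw [h4])
  sub := by
    intro i
    refine Fin.cases ?_ (fun i => ?_) i
    · exact Finset.sdiff_subset.trans (h.sub j)
    · show Function.update Cl j A i ⊆ _
      by_cases hi : i = j
      · subst hi; rw [Function.update_self]; exact hA.trans (h.sub i)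
      · rw [Function.update_of_ne hi]; exact h.sub i
  cov := by
    intro e he
    obtain ⟨i, hi⟩ := h.cov e he
    by_cases hij : i = j
    · subst hij
      by_cases heA : e ∈ A
      · refine ⟨Fin.succ i, ?_⟩
        show e ∈ Function.update Cl i A i
        rw [Function.update_self]; exact heA
      · exact ⟨0, Finset.mem_sdiff.mpr ⟨hi, heA⟩⟩
    · refine ⟨Fin.succ i, ?_⟩
      show e ∈ Function.update Cl j A i
      rw [Function.update_of_ne hij]; exact hi
  ne := by
    intro i
    refine Fin.cases ?_ (fun i => ?_) i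
    · exact nB
    · show (Function.update Cl j A i).Nonempty
      by_cases hi : i = j
      · subst hi; rw [Function.update_self]; exact nA
      · rw [Function.update_of_ne hi]; exact h.ne i
  dec := by
    intro v hv
    obtain ⟨w, hw, hs⟩ := h.dec v hv
    obtain ⟨a, ha, b, hb, hab⟩ := hsep _ (hw j)
    refine ⟨Fin.cons a (Function.update w j b), ?_, ?_⟩
    · intro i
      refine Fin.cases ?_ (fun i => ?_) i
      · show a ∈ piece G (Cl j \ A)
        refine ⟨ha.1.1, fun e he => ?_⟩
        rw [Finset.mem_sdiff, Finset.mem_sdiff, not_and_or, not_not] at he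
        by_cases heA : e ∈ A
        · exact ha.2 e heA
        · exact ha.1.2 e (Finset.mem_sdiff.mpr ⟨he.1, he.2.resolve_right heA⟩)
      · show Function.update w j b i ∈ piece G (Function.update Cl j A i)
        by_cases hi : i = j
        · subst hi
          rw [Function.update_self, Function.update_self]
          refine ⟨hb.1.1, fun e he => ?_⟩
          rw [Finset.mem_sdiff] at he
          by_cases hei : e ∈ Cl i
          · exact hb.2 e (Finset.mem_sdiff.mpr ⟨hei, he.2⟩)
          · exact hb.1.2 e (Finset.mem_sdiff.mpr ⟨he.1, hei⟩)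
        · rw [Function.update_of_ne hi, Function.update_of_ne hi]
          exact hw i
    · rw [Fin.sum_univ_succ]
      show a + ∑ i, Function.update w j b i = v
      rw [Finset.sum_update_of_mem (Finset.mem_univ j), ← add_assoc, hab, ← hs,
        ← Finset.erase_eq]
      exact Finset.add_sum_erase _ _ (Finset.mem_univ j)

/-- the key nonvanishing result: some decomposition into `c` pieces gives nonzero homology in
degree at least `n - #components - c` -/
theorem exists_dec_not_exact {G : SimpleGraph (Fin n)} (hE : (edges G).Nonempty) :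
    ∃ (c : ℕ) (Cl : Fin c → Finset (Pair n)) (d : ℕ), IsDec G Cl ∧
      n ≤ d + c + numComponents G ∧ ¬ Exact (edges G) (invs ℤ) d := by
  classical
  -- a maximal decomposition
  let P : ℕ → Prop := fun c => ∃ Cl : Fin c → Finset (Pair n), IsDec G Cl
  have hP1 : P 1 := ⟨_, isDec_one hE⟩
  have hPb : ∀ c, P c → c ≤ (edges G).card := fun c ⟨_, h⟩ => h.le_card
  obtain ⟨c, ⟨Cl, hCl⟩, hmax⟩ : ∃ c, P c ∧ ¬ P (c + 1) := by
    refine ⟨Nat.findGreatest P (edges G).card, Nat.findGreatest_spec (hPb 1 hP1) hP1, fun h => ?_⟩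
    have := Nat.le_findGreatest (hPb _ h) h
    omega
  have hinter : ∀ j, edges G ∩ Cl j = Cl j := fun j => Finset.inter_eq_right.mpr (hCl.sub j)
  have hgood : ∀ j, Good (piece G (Cl j)) (edges G ∩ Cl j) := by
    intro j
    rw [hinter]
    have hpos : 1 ≤ Module.finrank ℚ (piece G (Cl j)) := by
      rw [Nat.one_le_iff_ne_zero]
      intro h
      exact hCl.piece_ne_bot j (Submodule.finrank_eq_zero.mp h)
    refine ⟨hpos, fun _ => ?_, ?_⟩
    · unfold dl
      rw [hCl.piece_inf_K j, finrank_bot]
    · intro A hA nA nB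
      by_contra hcon
      rw [not_lt] at hcon
      apply hmax
      refine ⟨_, hCl.refine_sep hA nA nB ?_⟩
      have hinf : (piece G (Cl j) ⊓ K A) ⊓ (piece G (Cl j) ⊓ K (Cl j \ A)) = ⊥ := by
        rw [← inf_inf_distrib_left, ← K_union, Finset.union_sdiff_of_subset hA]
        exact hCl.piece_inf_K j
      have hsup : (piece G (Cl j) ⊓ K A) ⊔ (piece G (Cl j) ⊓ K (Cl j \ A)) = piece G (Cl j) := by
        refine Submodule.eq_of_le_of_finrank_le (sup_le inf_le_left inf_le_left) ?_
        have := Submodule.finrank_sup_add_finrank_inf_eq (piece G (Cl j) ⊓ K A)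
          (piece G (Cl j) ⊓ K (Cl j \ A))
        rw [hinf, finrank_bot] at this
        unfold dl at hcon
        omega
      intro v hv
      rw [← hsup] at hv
      exact Submodule.mem_sup.mp hv
  have h1 := not_exact_fam hCl.disj (edges G) hCl.cov (fun j => piece G (Cl j)) hgood
  refine ⟨c, Cl, topdeg Cl (fun j => piece G (Cl j)) (edges G), hCl, ?_, fun h => h1 ?_⟩
  · have h2 := hCl.finrank_le
    have h3 := finrank_V0 G
    have h4 : ∑ j, Module.finrank ℚ (piece G (Cl j)) ≤
        topdeg Cl (fun j => piece G (Cl j)) (edges G) + c := by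
      unfold topdeg
      calc ∑ j, Module.finrank ℚ (piece G (Cl j))
          ≤ ∑ j : Fin c, ((if (edges G ∩ Cl j).Nonempty then
            Module.finrank ℚ (piece G (Cl j)) - 1 else 0) + 1) := by
            refine Finset.sum_le_sum fun j _ => ?_
            rw [hinter, if_pos (hCl.ne j)]
            omega
        _ = _ := by
            rw [Finset.sum_add_distrib, Finset.sum_const, Finset.card_univ, Fintype.card_fin]
            simp
    omega
  · obtain ⟨p, hp1, hp2, hp3⟩ := hCl.exists_projs
    exact exact_fam_of_exact_invs (fun j => inf_le_right) p hp1 hp2 hp3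
      (lam := Fin.castLE hCl.le_n) (Fin.castLE_injective _) (exact_rat h)

end Pool.Agent.SpanHom
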