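import Mathlib
import Pool.Agent.SpanHom.Defs
import Pool.Agent.SpanHom.Complex
import Pool.Agent.SpanHom.Bridge
import Pool.Agent.SpanHom.Upper
import Pool.Agent.SpanHom.Tens
import Pool.Agent.SpanHom.Fam
import Pool.Agent.SpanHom.Retract
import Pool.Agent.SpanHom.Decomp

set_option autoImplicit false

namespace Pool.Agent.SpanHom

open Equiv

theorem card_comp_of_connected {V : Type*} {G : SimpleGraph V} {H : G.Subgraph}
    (h : H.Connected) : Nat.card H.coe.ConnectedComponent = 1 := by
  rw [Nat.card_eq_one_iff_unique]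
  exact ⟨h.coe.preconnected.subsingleton_connectedComponent,
    h.coe.nonempty.map H.coe.connectedComponentMk⟩

theorem noCutVertex_subgraphOfAdj {V : Type*} [Finite V] {G : SimpleGraph V} {x y : V}
    (h : G.Adj x y) : NoCutVertex (G.subgraphOfAdj h) := by
  intro v hv
  rw [card_comp_of_connected (SimpleGraph.Subgraph.subgraphOfAdj_connected h)]
  have hsub : Subsingleton ((G.subgraphOfAdj h).deleteVerts {v}).verts := by
    constructor
    rintro ⟨a, ha⟩ ⟨b, hb⟩
    simp only [SimpleGraph.Subgraph.deleteVerts_verts, SimpleGraph.subgraphOfAdj_verts,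
      Set.mem_sdiff, Set.mem_insert_iff, Set.mem_singleton_iff] at ha hb hv
    rw [Subtype.mk.injEq]
    obtain ⟨ha1, ha2⟩ := ha
    obtain ⟨hb1, hb2⟩ := hb
    rcases hv with hv | hv <;> rcases ha1 with ha1 | ha1 <;> rcases hb1 with hb1 | hb1 <;>
      simp_all
  have : Subsingleton ((G.subgraphOfAdj h).deleteVerts {v}).coe.ConnectedComponent := by
    constructor
    intro a b
    induction a using SimpleGraph.ConnectedComponent.ind with | _ a
    induction b using SimpleGraph.ConnectedComponent.ind with | _ b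
    rw [Subsingleton.elim a b]
  exact Finite.card_le_one_iff_subsingleton.mpr this

/-- every edge lies in a block -/
theorem exists_block {V : Type*} [Finite V] {G : SimpleGraph V} {x y : V} (h : G.Adj x y) :
    ∃ B : G.Subgraph, IsBlock B ∧ B.Adj x y := by
  obtain ⟨B, hB, hmax⟩ := Set.Finite.exists_le_maximal
    (s := {H : G.Subgraph | H.Connected ∧ NoCutVertex H}) (Set.toFinite _)
    (a := G.subgraphOfAdj h)
    ⟨SimpleGraph.Subgraph.subgraphOfAdj_connected h, noCutVertex_subgraphOfAdj h⟩
  exact ⟨B, hmax, (SimpleGraph.subgraphOfAdj_le_iff h B).mp hB⟩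

variable {n : ℕ} {G : SimpleGraph (Fin n)} {c : ℕ} {Cl : Fin c → Finset (Pair n)}

/-- the adjacent pair `x y` is in the class `i` -/
def InCl (Cl : Fin c → Finset (Pair n)) (i : Fin c) (x y : Fin n) : Prop :=
  toLex (x, y) ∈ Cl i ∨ toLex (y, x) ∈ Cl i

theorem InCl.symm {i : Fin c} {x y : Fin n} (h : InCl Cl i x y) : InCl Cl i y x := Or.symm h

theorem exists_inCl (h : IsDec G Cl) {x y : Fin n} (hxy : G.Adj x y) : ∃ i, InCl Cl i x y := by
  rcases lt_or_gt_of_ne hxy.ne with h1 | h1
  · obtain ⟨i, hi⟩ := h.cov (toLex (x, y)) (mem_edges.mpr ⟨h1, hxy⟩)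
    exact ⟨i, Or.inl hi⟩
  · obtain ⟨i, hi⟩ := h.cov (toLex (y, x)) (mem_edges.mpr ⟨h1, hxy.symm⟩)
    exact ⟨i, Or.inr hi⟩

theorem eq_of_inCl {i : Fin c} {a : Fin n → ℚ} (ha : a ∈ K (Cl i)) {x y : Fin n}
    (hxy : InCl Cl i x y) : a x = a y := by
  rcases hxy with h | h
  · exact ha _ h
  · exact (ha _ h).symm

theorem const_on_delete {B : G.Subgraph} (hB : B.Connected) (hcut : NoCutVertex B)
    {v u w : Fin n} (hv : v ∈ B.verts) (hu : u ∈ B.verts) (hw : w ∈ B.verts) (huv : u ≠ v)
    (hwv : w ≠ v) {s : Fin n → ℚ} (hs : ∀ x y, G.Adj x y → x ≠ v → y ≠ v → s x = s y) :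
    s u = s w := by
  have h1 := hcut v hv
  rw [card_comp_of_connected hB, Finite.card_le_one_iff_subsingleton] at h1
  have hu' : u ∈ (B.deleteVerts {v}).verts := by simp [hu, huv]
  have hw' : w ∈ (B.deleteVerts {v}).verts := by simp [hw, hwv]
  have h2 : (B.deleteVerts {v}).coe.Reachable ⟨u, hu'⟩ ⟨w, hw'⟩ :=
    SimpleGraph.ConnectedComponent.eq.mp (h1.elim _ _)
  have key : ∀ a b : (B.deleteVerts {v}).verts, (B.deleteVerts {v}).coe.Reachable a b →
      s a = s b := by
    intro a b hab
    obtain ⟨p⟩ := hab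
    induction p with
    | nil => rfl
    | cons hadj _ ih =>
      rw [← ih]
      rw [SimpleGraph.Subgraph.coe_adj, SimpleGraph.Subgraph.deleteVerts_adj] at hadj
      exact hs _ _ (B.adj_sub hadj.2.2.2.2) (by simpa using hadj.2.1) (by simpa using hadj.2.2.2.1)
  exact key _ _ h2

/-- in a connected subgraph without cut vertex, the edges at a vertex are in one class -/
theorem class_at_vertex (h : IsDec G Cl) {B : G.Subgraph} (hB : B.Connected)
    (hcut : NoCutVertex B) {v u w : Fin n} (hvu : B.Adj v u) (hvw : B.Adj v w) {i j : Fin c}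
    (hi : InCl Cl i v u) (hj : InCl Cl j v w) : i = j := by
  classical
  by_contra hij
  let δ : Fin n → ℚ := Pi.single v 1
  let r : Fin n → ℚ := fun x => δ (Quot.out (G.connectedComponentMk x))
  have hr : ∀ x y, G.Adj x y → r x = r y := by
    intro x y hxy
    show δ _ = δ _
    rw [SimpleGraph.ConnectedComponent.eq.mpr hxy.reachable]
  have hv0 : δ - r ∈ V0 G := by
    rw [mem_V0]
    intro c
    show δ (Quot.out c) - δ (Quot.out (G.connectedComponentMk (Quot.out c))) = 0
    rw [out_mk, sub_self]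
  obtain ⟨ws, hws, hsum⟩ := h.dec _ hv0
  set s := ws i with hs
  set t := (∑ k ∈ Finset.univ.erase i, ws k) + r with ht
  have hst : ∀ x, s x + t x = δ x := by
    intro x
    have h1 : s + t = δ := by
      rw [ht, ← add_assoc, hs, Finset.add_sum_erase _ _ (Finset.mem_univ i), hsum]
      simp
    exact congrFun h1 x
  have hsK : ∀ k, k ≠ i → ∀ x y, InCl Cl k x y → s x = s y := fun k hk x y hxy =>
    eq_of_inCl (h.piece_le (Ne.symm hk) (hws i)) hxy
  have htK : ∀ x y, G.Adj x y → InCl Cl i x y → t x = t y := by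
    intro x y hadj hxy
    have h1 : ∑ k ∈ Finset.univ.erase i, ws k ∈ K (Cl i) :=
      Submodule.sum_mem _ fun k hk => h.piece_le (Finset.ne_of_mem_erase hk) (hws k)
    simp only [ht, Pi.add_apply]
    rw [eq_of_inCl h1 hxy, hr x y hadj]
  have hδ : ∀ x, x ≠ v → δ x = 0 := fun x hx => Pi.single_eq_of_ne hx _
  have hconst : ∀ x y, G.Adj x y → x ≠ v → y ≠ v → s x = s y := by
    intro x y hadj hx hy
    obtain ⟨k, hk⟩ := exists_inCl h hadj
    by_cases hki : k = i
    · subst hki
      have h1 := htK x y hadj hk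
      have h2 := hst x
      have h3 := hst y
      rw [hδ x hx] at h2
      rw [hδ y hy] at h3
      linarith
    · exact hsK k hki x y hk
  have huv : u ≠ v := hvu.ne.symm
  have hwv : w ≠ v := hvw.ne.symm
  have e1 := const_on_delete hB hcut hvu.fst_mem hvu.snd_mem hvw.snd_mem huv hwv hconst
  have e2 := hsK j (Ne.symm hij) v w hj
  have e3 := htK v u (B.adj_sub hvu) hi
  have e4 := hst v
  have e5 := hst u
  rw [hδ u huv] at e5
  have e6 : δ v = 1 := Pi.single_eq_same _ _
  rw [e6] at e4
  linarith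

/-- in a connected subgraph without cut vertex, all the edges are in one class -/
theorem class_of_block (h : IsDec G Cl) {B : G.Subgraph} (hB : B.Connected)
    (hcut : NoCutVertex B) {x y x' y' : Fin n} (hxy : B.Adj x y) (hxy' : B.Adj x' y')
    {i j : Fin c} (hi : InCl Cl i x y) (hj : InCl Cl j x' y') : i = j := by
  have h2 : B.coe.Reachable ⟨x, hxy.fst_mem⟩ ⟨x', hxy'.fst_mem⟩ := hB.coe.preconnected _ _
  have key : ∀ a b : B.verts, B.coe.Reachable a b →
      (∀ w k, B.Adj a w → InCl Cl k a w → k = i) → (∀ w k, B.Adj b w → InCl Cl k b w → k = i) := by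
    intro a b hab
    obtain ⟨p⟩ := hab
    induction p with
    | nil => exact fun h => h
    | cons hadj _ ih =>
      intro ha
      apply ih
      intro w k hw hk
      rw [SimpleGraph.Subgraph.coe_adj] at hadj
      obtain ⟨l, hl⟩ := exists_inCl h (B.adj_sub hadj)
      have h3 := ha _ l hadj hl
      subst h3
      exact class_at_vertex h hB hcut hw hadj.symm hk hl.symm
  have h3 := key _ _ h2 fun w k hw hk => class_at_vertex h hB hcut hw hxy hk hi
  exact (h3 _ _ hxy' hj).symm

/-- the number of classes is at most the number of blocks -/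
theorem IsDec.le_numBlocks (h : IsDec G Cl) : c ≤ numBlocks G := by
  have h1 : ∀ i : Fin c, ∃ B : {H : G.Subgraph // IsBlock H}, ∃ x y, B.1.Adj x y ∧ InCl Cl i x y := by
    intro i
    obtain ⟨e, he⟩ := h.ne i
    have hadj := (mem_edges.mp (h.sub i he)).2
    obtain ⟨B, hB, hBe⟩ := exists_block hadj
    exact ⟨⟨B, hB⟩, (ofLex e).1, (ofLex e).2, hBe, Or.inl he⟩
  choose B x y hxy hcl using h1
  have hinj : Function.Injective B := by
    intro i j hij
    have h2 := hxy j
    rw [← hij] at h2
    exact class_of_block h (B i).2.prop.1 (B i).2.prop.2 (hxy i) h2 (hcl i) (hcl j)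
  have := Nat.card_le_card_of_injective B hinj
  rwa [Nat.card_eq_fintype_card, Fintype.card_fin] at this

/-- the homology in degree zero of an edgeless graph does not vanish -/
theorem not_exact_edgeless (hE : ¬ (edges G).Nonempty) : ¬ Exact (edges G) (invs ℤ) 0 := by
  rw [Finset.not_nonempty_iff_eq_empty] at hE
  rw [hE]
  refine not_exact_empty (w := fun _ => 1) (fun _ _ _ => rfl) ?_
  intro h
  have := congrFun h 1
  simp at this

theorem numComponents_edgeless (hE : ¬ (edges G).Nonempty) : n ≤ numComponents G := by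
  have h := finrank_V0 G
  have h1 : V0 G = ⊥ := by
    have h2 := V0_inf_K G
    rw [Finset.not_nonempty_iff_eq_empty] at hE
    rwa [hE, K_empty, inf_top_eq] at h2
  rw [h1, finrank_bot] at h
  omega

/-- nonvanishing homology in a degree at least `n - #components - #blocks` -/
theorem exists_nontrivial (G : SimpleGraph (Fin n)) :
    ∃ d, n ≤ d + numBlocks G + numComponents G ∧ Nontrivial (Homology G d) := by
  by_cases hE : (edges G).Nonempty
  · obtain ⟨c, Cl, d, hdec, hd, hne⟩ := exists_dec_not_exact hE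
    refine ⟨d, ?_, nontrivial_homology_iff.mpr hne⟩
    have := hdec.le_numBlocks
    omega
  · refine ⟨0, ?_, nontrivial_homology_iff.mpr (not_exact_edgeless hE)⟩
    have := numComponents_edgeless hE
    omega

/-- existence of the span, and the two bounds -/
theorem span_bounds (hn : 2 ≤ n) (G : SimpleGraph (Fin n)) :
    ∃ s, IsSpan G s ∧ s ≤ n - 1 ∧ n + 1 ≤ s + numBlocks G + numComponents G := by
  obtain ⟨d, hd, hne⟩ := exists_nontrivial G
  have hub : ∀ k, Nontrivial (Homology G k) → k + 1 ≤ n - 1 := by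
    intro k hk
    by_contra hcon
    exact nontrivial_homology_iff.mp hk (exact_of_ge ℤ hn (edges G) (by omega))
  have hbdd : BddAbove {k | Nontrivial (Homology G k)} := ⟨n, fun k hk => by
    have := hub k hk
    omega⟩
  have hmem := Nat.sSup_mem (s := {k | Nontrivial (Homology G k)}) ⟨d, hne⟩ hbdd
  refine ⟨sSup {k | Nontrivial (Homology G k)} + 1, ⟨_, ⟨hmem, fun k hk => le_csSup hbdd hk⟩, rfl⟩,
    hub _ hmem, ?_⟩
  have : d ≤ sSup {k | Nontrivial (Homology G k)} := le_csSup hbdd hne
  omega

end Pool.Agent.SpanHom
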