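import Mathlib
import Pool.Agent.SpanHom.Defs
import Pool.Agent.SpanHom.Complex
import Pool.Agent.SpanHom.Bridge
import Pool.Agent.SpanHom.Upper
import Pool.Agent.SpanHom.Tens
import Pool.Agent.SpanHom.Fam
import Pool.Agent.SpanHom.Retract
import Pool.Agent.SpanHom.Decomp
import Pool.Agent.SpanHom.Blocks

set_option autoImplicit false

namespace Pool.Agent.SpanHom

open Equiv

/-- two disjoint edges on four vertices -/
def twoK2 : SimpleGraph (Fin 4) := SimpleGraph.fromEdgeSet {s(0, 1), s(2, 3)}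

theorem twoK2_adj {i j : Fin 4} :
    twoK2.Adj i j ↔ (i = 0 ∧ j = 1) ∨ (i = 1 ∧ j = 0) ∨ (i = 2 ∧ j = 3) ∨ (i = 3 ∧ j = 2) := by
  simp only [twoK2, SimpleGraph.fromEdgeSet_adj, Set.mem_insert_iff, Set.mem_singleton_iff,
    Sym2.eq_iff]
  revert i j
  decide

theorem edges_twoK2 : edges twoK2 = {toLex (0, 1), toLex (2, 3)} := by
  ext e
  rw [mem_edges, twoK2_adj, Finset.mem_insert, Finset.mem_singleton]
  revert e
  decide

theorem perm4 : ∀ h : Perm (Fin 4), (∀ x, (h x < 2 ↔ x < 2)) →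
    h = 1 ∨ h = swap 0 1 ∨ h = swap 2 3 ∨ h = swap 0 1 * swap 2 3 := by
  decide

/-- the indicator function of `{0, 1}` -/
def ind : Fin 4 → ℚ := fun x => if x < 2 then 1 else 0

theorem ind_mem : ind ∈ K (edges twoK2) := by
  rw [edges_twoK2]
  intro e he
  rw [Finset.mem_insert, Finset.mem_singleton] at he
  rcases he with rfl | rfl
  · simp [ind]
  · simp [ind]

theorem ind_eq {x y : Fin 4} (h : ind x = ind y) : (x < 2 ↔ y < 2) := by
  unfold ind at h
  by_cases hx : x < 2
  · by_cases hy : y < 2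
    · exact iff_of_true hx hy
    · rw [if_pos hx, if_neg hy] at h; exact absurd h one_ne_zero
  · by_cases hy : y < 2
    · rw [if_neg hx, if_pos hy] at h; exact absurd h zero_ne_one
    · exact iff_of_false hx hy

theorem invs_inter {φ : Perm (Fin 4) → ℤ} (h1 : φ ∈ invs ℤ {(toLex (0, 1) : Pair 4)})
    (h2 : φ ∈ invs ℤ {(toLex (2, 3) : Pair 4)}) : φ ∈ invs ℤ (edges twoK2) := by
  intro g h hh
  have s1 : ∀ g, φ (g * swap 0 1) = φ g := fun g =>
    h1 g _ (swap_mem_young (e := (toLex (0, 1) : Pair 4)) (by simp))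
  have s2 : ∀ g, φ (g * swap 2 3) = φ g := fun g =>
    h2 g _ (swap_mem_young (e := (toLex (2, 3) : Pair 4)) (by simp))
  have hx : ∀ x, (h x < 2 ↔ x < 2) := fun x => ind_eq (const_of_reachable ind_mem (hh x)).symm
  rcases perm4 h hx with rfl | rfl | rfl | rfl
  · rw [mul_one]
  · exact s1 g
  · exact s2 g
  · rw [← mul_assoc, s2, s1]

theorem exact_twoK2 {k : ℕ} (hk : 1 ≤ k) : Exact (edges twoK2) (invs ℤ) k := by
  have hcard : (edges twoK2).card = 2 := by rw [edges_twoK2]; decide
  rcases Nat.lt_or_ge 2 k with h | h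
  · exact exact_of_card_lt _ (by omega)
  rcases Nat.lt_or_ge 1 k with h1 | h1
  · have h2 : k = (edges twoK2).card := by omega
    rw [h2]
    exact exact_card _ (by rw [edges_twoK2]; simp)
  have hk1 : k = 1 := by omega
  subst hk1
  have hE : edges twoK2 = insert (toLex (0, 1)) {toLex (2, 3)} := edges_twoK2
  set e₁ : Pair 4 := toLex (0, 1) with he1
  set e₂ : Pair 4 := toLex (2, 3) with he2
  have he : e₁ ∉ ({e₂} : Finset (Pair 4)) := by
    rw [Finset.mem_singleton]; decide
  intro x hx hbx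
  rw [hE] at hx hbx ⊢
  have hx0 := isChn_del hx
  have hb0 := bd_insert_del_res he x (fun F _ => congrFun hbx F) hx
  -- the value at `{e₂}`
  have hval : x {e₂} ∈ invs ℤ ({e₁} : Finset (Pair 4)) := by
    have h2 := congrFun hb0 ∅
    have h3 : e₁ ∉ (∅ : Finset (Pair 4)) := by simp
    simp only [bd, Finset.sdiff_empty, Finset.sum_singleton, Pi.neg_apply, res, del,
      insert_empty_eq] at h2
    rw [if_neg he, if_neg h3] at h2
    have h4 : sgn e₂ ∅ • (sgn e₂ ∅ • x {e₂}) = sgn e₂ ∅ • -(sgn e₁ ∅ • x {e₁}) := by rw [h2]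
    rw [smul_smul, sgn_mul_self, one_smul] at h4
    rw [h4]
    exact AddSubgroup.zsmul_mem _ (AddSubgroup.neg_mem _ (AddSubgroup.zsmul_mem _ (hx.mem _) _)) _
  have hx1 : IsChn {e₂} (fun F => invs ℤ (insert e₁ F)) 1 (del e₁ x) := by
    refine ⟨fun F => ?_, hx0.supp⟩
    by_cases h0 : del e₁ x F = 0
    · rw [h0]; exact AddSubgroup.zero_mem _
    · obtain ⟨h5, h6⟩ := hx0.supp F h0
      have h7 : F = {e₂} := Finset.eq_of_subset_of_card_le h5 (by simp [h6])
      subst h7
      simp only [del, if_neg he]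
      rw [← hE]
      exact invs_inter hval (hx.mem _)
  refine ⟨glue e₁ 0 (del e₁ x), isChn_glue (isChn_zero _ _ _) hx1, ?_⟩
  rw [bd_glue he (isChn_zero _ (invs ℤ) 0) hx1, hb0, bd_zero, neg_neg, zero_add]
  exact glue_del_res (A := invs ℤ) (k := 1)

theorem side_of_connected {B : twoK2.Subgraph} (hB : B.Connected) {x y : Fin 4}
    (hx : x ∈ B.verts) (hy : y ∈ B.verts) : (x < 2 ↔ y < 2) := by
  have h1 : B.coe.Reachable ⟨x, hx⟩ ⟨y, hy⟩ := hB.coe.preconnected _ _
  have h2 : twoK2.Reachable x y := h1.map B.hom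
  have h3 : (graphOf (edges twoK2)).Reachable x y := by rwa [graphOf_edges]
  exact ind_eq (const_of_reachable ind_mem h3)

theorem adj01 : twoK2.Adj 0 1 := by rw [twoK2_adj]; decide

theorem adj23 : twoK2.Adj 2 3 := by rw [twoK2_adj]; decide

theorem block_twoK2 {B : twoK2.Subgraph} (hB : IsBlock B) :
    B = twoK2.subgraphOfAdj adj01 ∨ B = twoK2.subgraphOfAdj adj23 := by
  have key : ∀ {a b : Fin 4} (hab : twoK2.Adj a b),
      (∀ x ∈ B.verts, x = a ∨ x = b) → B = twoK2.subgraphOfAdj hab := by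
    intro a b hab hv
    have hle : B ≤ twoK2.subgraphOfAdj hab := by
      refine ⟨fun x hx => ?_, fun x y hxy => ?_⟩
      · simpa using hv x hx
      · rw [SimpleGraph.subgraphOfAdj_adj]
        have h1 := hv x hxy.fst_mem
        have h2 := hv y hxy.snd_mem
        have h3 := hxy.ne
        rcases h1 with rfl | rfl <;> rcases h2 with rfl | rfl
        · exact absurd rfl h3
        · rfl
        · exact Sym2.eq_swap
        · exact absurd rfl h3
    exact le_antisymm hle (hB.2 ⟨SimpleGraph.Subgraph.subgraphOfAdj_connected hab,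
      noCutVertex_subgraphOfAdj hab⟩ hle)
  obtain ⟨⟨x, hx⟩⟩ := hB.1.1.coe.nonempty
  have hside := fun y hy => side_of_connected hB.1.1 hx (y := y) hy
  by_cases h : x < 2
  · left
    refine key adj01 fun y hy => ?_
    have := (hside y hy).mp h
    clear hy
    revert this
    revert y
    decide
  · right
    refine key adj23 fun y hy => ?_
    have : ¬ y < 2 := fun h' => h ((hside y hy).mpr h')
    clear hy
    revert this
    revert y
    decide

theorem numBlocks_twoK2 : numBlocks twoK2 ≤ 2 := by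
  classical
  unfold numBlocks
  let f : {H : twoK2.Subgraph // IsBlock H} → Bool := fun H =>
    decide (H.1 = twoK2.subgraphOfAdj adj01)
  have hf : Function.Injective f := by
    intro A B hAB
    apply Subtype.ext
    have h : A.1 = twoK2.subgraphOfAdj adj01 ↔ B.1 = twoK2.subgraphOfAdj adj01 := by
      simpa [f] using hAB
    by_cases hA : A.1 = twoK2.subgraphOfAdj adj01
    · rw [hA, h.mp hA]
    · have hB : ¬ B.1 = twoK2.subgraphOfAdj adj01 := fun hB => hA (h.mpr hB)
      rw [(block_twoK2 A.2).resolve_left hA, (block_twoK2 B.2).resolve_left hB]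
  have := Nat.card_le_card_of_injective f hf
  simpa using this

/-- for two disjoint edges, `span + #blocks ≤ 3 < 4 = n` -/
theorem span_twoK2 {s : ℕ} (h : IsSpan twoK2 s) : s + numBlocks twoK2 < 4 := by
  obtain ⟨k, hk, rfl⟩ := h
  have h0 : k = 0 := by
    by_contra hne
    exact nontrivial_homology_iff.mp hk.1 (exact_twoK2 (by omega))
  have := numBlocks_twoK2
  omega

end Pool.Agent.SpanHom
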